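import Pool.Agent.W2helper74.SOS.Stm

/-!
# SOS conjecture, piece J2: `B4` and `B5`
-/

open MvPolynomial

namespace Pool.Agent.W2helper66.SOS

open Pool.Agent.W2helper74.SOS

/-- linear independence is an open condition along a polynomial family -/
theorem semi {M : Type*} [AddCommGroup M] [Module ℂ M] {ι : Type*} [Fintype ι] [DecidableEq ι]
    (N : ℕ) (c : ι → ℕ → M) (t₁ : ℂ)
    (h : LinearIndependent ℂ (fun a => ∑ k ∈ Finset.range N, t₁ ^ k • c a k)) :
    {t : ℂ | ¬ LinearIndependent ℂ (fun a => ∑ k ∈ Finset.range N, t ^ k • c a k)}.Finite := by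
  classical
  set v : ℂ → ι → M := fun t a => ∑ k ∈ Finset.range N, t ^ k • c a k with hv
  have hinj : LinearMap.ker (Fintype.linearCombination ℂ (v t₁)) = ⊥ := by
    exact LinearMap.ker_eq_bot.2 (LinearIndependent.fintypeLinearCombination_injective h)
  obtain ⟨g, hg⟩ := LinearMap.exists_leftInverse_of_injective _ hinj
  have hg1 : ∀ a, g (v t₁ a) = Pi.single a 1 := by
    intro a
    have := congrArg (fun f => f (Pi.single a 1)) hg
    simpa [Fintype.linearCombination_apply_single] using this
  let P : Matrix ι ι (Polynomial ℂ) := fun a b =>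
    ∑ k ∈ Finset.range N, Polynomial.C (g (c a k) b) * Polynomial.X ^ k
  have hP : ∀ t, P.map (Polynomial.eval t) = fun a b => g (v t a) b := by
    intro t
    ext a b
    change Polynomial.eval t (∑ k ∈ Finset.range N,
      Polynomial.C (g (c a k) b) * Polynomial.X ^ k) = _
    simp only [Polynomial.eval_finsetSum, Polynomial.eval_mul,
      Polynomial.eval_C, Polynomial.eval_pow, Polynomial.eval_X, hv, map_sum, map_smul,
      Finset.sum_apply, Pi.smul_apply, smul_eq_mul]
    exact Finset.sum_congr rfl (fun k _ => mul_comm _ _)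
  have hdet : ∀ t, P.det.eval t = Matrix.det (fun a b => g (v t a) b) := by
    intro t
    rw [← hP t]
    have := RingHom.map_det (Polynomial.evalRingHom t) P
    simpa [RingHom.mapMatrix_apply] using this
  have hne : P.det ≠ 0 := by
    intro h0
    have h1 := hdet t₁
    rw [h0, Polynomial.eval_zero] at h1
    have h2 : (fun a b => g (v t₁ a) b) = (1 : Matrix ι ι ℂ) := by
      ext a b
      rw [hg1, Matrix.one_apply, Pi.single_apply]
      simp [eq_comm]
    rw [h2, Matrix.det_one] at h1
    exact zero_ne_one h1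
  refine (Polynomial.finite_setOfPred_isRoot hne).subset ?_
  intro t ht
  simp only [Set.mem_ofPred_eq] at ht ⊢
  by_contra hroot
  apply ht
  have hd : Matrix.det (fun a b => g (v t a) b) ≠ 0 := by
    rw [← hdet t]; exact hroot
  have hli := Matrix.linearIndependent_rows_of_det_ne_zero hd
  exact LinearIndependent.of_comp g hli

/-- a polynomial family which lies in a subspace has its coefficients there -/
theorem coef {M : Type*} [AddCommGroup M] [Module ℂ M] (S : Submodule ℂ M) (N : ℕ) (c : ℕ → M)
    (h : ∀ t : ℂ, ∑ k ∈ Finset.range N, t ^ k • c k ∈ S) : ∀ k < N, c k ∈ S := by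
  intro k hk
  rw [← Submodule.Quotient.mk_eq_zero]
  rw [← Module.forall_dual_apply_eq_zero_iff ℂ]
  intro f
  let P : Polynomial ℂ := ∑ k ∈ Finset.range N,
    Polynomial.C (f (Submodule.Quotient.mk (c k))) * Polynomial.X ^ k
  have hP : P = 0 := by
    apply Polynomial.funext
    intro t
    simp only [P, Polynomial.eval_finsetSum, Polynomial.eval_mul,
      Polynomial.eval_C, Polynomial.eval_pow, Polynomial.eval_X, Polynomial.eval_zero]
    have h1 := (Submodule.Quotient.mk_eq_zero S).2 (h t)
    have h2 := congrArg f h1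
    rw [map_zero] at h2
    rw [← h2]
    have h3 : (Submodule.Quotient.mk (∑ k ∈ Finset.range N, t ^ k • c k) : M ⧸ S) =
        ∑ k ∈ Finset.range N, t ^ k • Submodule.Quotient.mk (c k) := by
      change S.mkQ _ = _
      rw [map_sum]
      simp
    rw [h3, map_sum]
    refine Finset.sum_congr rfl (fun k _ => ?_)
    rw [map_smul, smul_eq_mul, mul_comm]
  have h4 : P.coeff k = f (Submodule.Quotient.mk (c k)) := by
    simp only [P, Polynomial.finsetSum_coeff, Polynomial.coeff_C_mul, Polynomial.coeff_X_pow]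
    rw [Finset.sum_eq_single k]
    · simp
    · intro b _ hb; simp [Ne.symm hb]
    · intro hk'; exact absurd (Finset.mem_range.2 hk) hk'
  rw [← h4, hP, Polynomial.coeff_zero]

theorem lf_add {n : ℕ} (w w' : Fin n → ℂ) : lf (w + w') = lf w + lf w' := by
  simp [lf, add_mul, Finset.sum_add_distrib]

theorem lf_smul {n : ℕ} (t : ℂ) (w : Fin n → ℂ) : lf (t • w) = C t * lf w := by
  simp [lf, Finset.mul_sum, mul_assoc]

theorem lf_single {n : ℕ} (i : Fin n) : lf (Pi.single i 1) = (X i : Pol n) := by
  classical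
  unfold lf
  rw [Finset.sum_eq_single i]
  · simp
  · intro b _ hb; simp [hb]
  · intro h; exact absurd (Finset.mem_univ i) h

theorem emb_castSucc {j : ℕ} (l : Fin j) : emb j (j + 1) l.castSucc = Pi.single l 1 := by
  ext b
  simp [emb, Pi.single_apply, Fin.ext_iff, eq_comm]

theorem emb_last {j : ℕ} : emb j (j + 1) (Fin.last j) = 0 := by
  ext b
  have := b.isLt
  simp [emb]
  omega

theorem res_X {n j : ℕ} (T : Matrix (Fin n) (Fin j) ℂ) (k : Fin n) : res T (X k) = lf (T k) := by
  simp [res]

theorem lf_zero {n : ℕ} : lf (0 : Fin n → ℂ) = 0 := by simp [lf]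

/-- the kernel of the restriction to the hyperplane `z_last = 0` -/
theorem dvd_of_res_eq_zero {j : ℕ} (g : Pol (j + 1)) (h : res (emb j (j + 1)) g = 0) :
    X (Fin.last j) ∣ g := by
  let I : Ideal (Pol (j + 1)) := Ideal.span {X (Fin.last j)}
  have key : (((Ideal.Quotient.mkₐ ℂ I).comp (rename (Fin.castSucc : Fin j → Fin (j + 1)))).comp
      (res (emb j (j + 1)))) = Ideal.Quotient.mkₐ ℂ I := by
    apply MvPolynomial.algHom_ext
    intro k
    simp only [AlgHom.comp_apply, res_X]
    refine Fin.lastCases ?_ (fun l => ?_) k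
    · rw [emb_last, lf_zero, map_zero, map_zero]
      symm
      exact Ideal.Quotient.eq_zero_iff_mem.2 (Ideal.subset_span rfl)
    · rw [emb_castSucc, lf_single, rename_X]
  have h1 := congrArg (fun f => f g) key
  simp only [AlgHom.comp_apply, h, map_zero] at h1
  exact Ideal.mem_span_singleton.1 (Ideal.Quotient.eq_zero_iff_mem.1 h1.symm)

/-- the perturbed embedding -/
noncomputable def Tt {j : ℕ} (w : Fin j → ℂ) (t : ℂ) : Matrix (Fin (j + 1)) (Fin j) ℂ :=
  fun k l => emb j (j + 1) k l + (if k = Fin.last j then t * w l else 0)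

/-- the polynomial family of restrictions -/
noncomputable def Phi {j : ℕ} (w : Fin j → ℂ) : Pol (j + 1) →ₐ[ℂ] Polynomial (Pol j) :=
  aeval (fun k => Polynomial.C (lf (emb j (j + 1) k)) +
    (if k = Fin.last j then Polynomial.X * Polynomial.C (lf w) else 0))

theorem Phi_eval {j : ℕ} (w : Fin j → ℂ) (t : ℂ) (p : Pol (j + 1)) :
    (Phi w p).eval (C t) = res (Tt w t) p := by
  have key : ((Polynomial.aeval (C t : Pol j)).restrictScalars ℂ).comp (Phi w) = res (Tt w t) := by
    apply MvPolynomial.algHom_ext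
    intro k
    simp only [AlgHom.comp_apply, res_X, Phi, aeval_X, AlgHom.restrictScalars_apply]
    by_cases hk : k = Fin.last j
    · subst hk
      have : Tt w t (Fin.last j) = t • w := by
        ext l; simp [Tt, congrFun (emb_last (j := j)) l]
      rw [this, lf_smul, emb_last, lf_zero]
      simp
      exact mul_comm _ _
    · have : Tt w t k = emb j (j + 1) k := by
        ext l; simp [Tt, hk]
      rw [this]
      simp [hk]
  have := congrArg (fun f => f p) key
  simpa [Polynomial.aeval_def, Polynomial.eval₂_eq_eval_map] using this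

/-- the key claim (K) -/
theorem keyK {j : ℕ} (U : Submodule ℂ (Pol (j + 1))) [Module.Finite ℂ U]
    (hmax : ∀ T : Matrix (Fin (j + 1)) (Fin j) ℂ, rk U T ≤ rk U (emb j (j + 1)))
    (i : ℕ) (g : Pol (j + 1)) (hg : X (Fin.last j) ^ i * g ∈ U) (w : Fin j → ℂ) :
    lf w ^ i * res (emb j (j + 1)) g ∈ rs U (emb j (j + 1)) := by
  classical
  by_contra hnot
  have : Module.Finite ℂ (rs U (emb j (j + 1))) := by
    unfold rs; infer_instance
  let s := rk U (emb j (j + 1))
  let b : Module.Basis (Fin s) ℂ (rs U (emb j (j + 1))) := Module.finBasis ℂ _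
  have hu : ∀ a : Fin s, ∃ u ∈ U, res (emb j (j + 1)) u = (b a : Pol j) := by
    intro a
    obtain ⟨u, hu, hu2⟩ := Submodule.mem_map.1 (b a).2
    exact ⟨u, hu, hu2⟩
  choose u huU hub using hu
  have hT0 : Tt w 0 = emb j (j + 1) := by
    ext k l; simp [Tt]
  let P : Option (Fin s) → Polynomial (Pol j) := fun o =>
    o.elim (Polynomial.C (lf w ^ i) * Phi w g) (fun a => Phi w (u a))
  let N : ℕ := Finset.univ.sup (fun o => (P o).natDegree) + 1
  have hN : ∀ o, (P o).natDegree < N := fun o =>
    Nat.lt_succ_of_le (Finset.le_sup (f := fun o => (P o).natDegree) (Finset.mem_univ o))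
  have hev : ∀ (t : ℂ) o, ∑ k ∈ Finset.range N, t ^ k • (P o).coeff k = (P o).eval (C t) := by
    intro t o
    rw [Polynomial.eval_eq_sum_range' (hN o)]
    refine Finset.sum_congr rfl (fun k _ => ?_)
    rw [← map_pow, mul_comm, ← smul_eq_C_mul]
  have h0 : LinearIndependent ℂ
      (fun o => ∑ k ∈ Finset.range N, (0 : ℂ) ^ k • (P o).coeff k) := by
    have e : (fun o => ∑ k ∈ Finset.range N, (0 : ℂ) ^ k • (P o).coeff k) =
        fun o => Option.casesOn' o (lf w ^ i * res (emb j (j + 1)) g)
          (fun a => ((b a : rs U (emb j (j + 1))) : Pol j)) := by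
      funext o
      rw [hev]
      cases o with
      | none =>
        simp only [P, Option.elim, Option.casesOn', Polynomial.eval_mul, Polynomial.eval_C,
          Phi_eval, hT0]
      | some a =>
        simp only [P, Option.elim, Option.casesOn', Phi_eval, hT0, hub]
    rw [e, linearIndependent_option']
    have hbi : LinearIndependent ℂ (fun a => ((b a : rs U (emb j (j + 1))) : Pol j)) :=
      b.linearIndependent.map' (rs U (emb j (j + 1))).subtype (Submodule.ker_subtype _)
    refine ⟨hbi, fun hmem => hnot ?_⟩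
    refine (Submodule.span_le.2 ?_) hmem
    rintro _ ⟨a, rfl⟩
    exact (b a).2
  have hfin := semi N (fun o => (P o).coeff) 0 h0
  have hfin2 := hfin.union (Set.finite_singleton (0 : ℂ))
  obtain ⟨t, ht⟩ := hfin2.infinite_compl.nonempty
  simp only [Set.mem_compl_iff, Set.mem_union, Set.mem_ofPred_eq, Set.mem_singleton_iff,
    not_or, not_not] at ht
  obtain ⟨hli, ht0⟩ := ht
  have e : (fun o => ∑ k ∈ Finset.range N, t ^ k • (P o).coeff k) = fun o => (P o).eval (C t) :=
    funext (hev t)
  rw [e] at hli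
  have hmem : ∀ o, (P o).eval (C t) ∈ rs U (Tt w t) := by
    intro o
    cases o with
    | none =>
      simp only [P, Option.elim, Polynomial.eval_mul, Polynomial.eval_C, Phi_eval]
      have h1 : res (Tt w t) (X (Fin.last j) ^ i * g) ∈ rs U (Tt w t) :=
        Submodule.mem_map.2 ⟨_, hg, rfl⟩
      have hl : Tt w t (Fin.last j) = t • w := by
        ext l; simp [Tt, congrFun (emb_last (j := j)) l]
      rw [map_mul, map_pow, res_X, hl, lf_smul, mul_pow, mul_assoc, ← map_pow,
        ← smul_eq_C_mul] at h1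
      have h2 := (rs U (Tt w t)).smul_mem ((t ^ i)⁻¹) h1
      rwa [smul_smul, inv_mul_cancel₀ (pow_ne_zero i ht0), one_smul] at h2
    | some a =>
      simp only [P, Option.elim, Phi_eval]
      exact Submodule.mem_map.2 ⟨_, huU a, rfl⟩
  have : Module.Finite ℂ (rs U (Tt w t)) := by
    unfold rs; infer_instance
  have hli2 : LinearIndependent ℂ (fun o => (⟨(P o).eval (C t), hmem o⟩ : rs U (Tt w t))) := by
    apply LinearIndependent.of_comp (rs U (Tt w t)).subtype
    exact hli
  have hcard := hli2.fintype_card_le_finrank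
  rw [Fintype.card_option, Fintype.card_fin] at hcard
  have := hmax (Tt w t)
  unfold rk at this
  simp only [s, rk] at hcard
  omega

theorem b4 : B4 := by
  intro j U hU hmax g hg w
  have := hU
  have := keyK U hmax 1 g (by simpa using hg) w
  simpa using this

theorem b5 : B5 := by
  intro j U hU hj hmax ⟨p, hpU, hp0, hdvd⟩
  have := hU
  have hXp : Prime (X (Fin.last j) : Pol (j + 1)) := MvPolynomial.X_prime
  have hfm : FiniteMultiplicity (X (Fin.last j) : Pol (j + 1)) p :=
    FiniteMultiplicity.of_not_isUnit hXp.not_isUnit hp0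
  obtain ⟨g, hpg, hng⟩ := hfm.exists_eq_pow_mul_and_not_dvd
  set i := multiplicity (X (Fin.last j) : Pol (j + 1)) p with hi
  have hi2 : 2 ≤ i := hfm.le_multiplicity_of_pow_dvd hdvd
  obtain ⟨m, hm⟩ : ∃ m, i = m + 2 := ⟨i - 2, by omega⟩
  set g₀ := res (emb j (j + 1)) g with hg₀
  have hg₀0 : g₀ ≠ 0 := fun h => hng (dvd_of_res_eq_zero g h)
  have hK : ∀ w, lf w ^ i * g₀ ∈ rs U (emb j (j + 1)) := fun w =>
    keyK U hmax i g (by rw [← hpg]; exact hpU) w
  let z : Fin j := ⟨0, hj⟩
  refine ⟨X z ^ m * g₀, mul_ne_zero (pow_ne_zero _ (X_ne_zero z)) hg₀0, ?_⟩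
  intro w w'
  -- first extraction
  have h1 : ∀ a : Fin j → ℂ, lf w' * lf a ^ (m + 1) * C ((m + 2 : ℕ) : ℂ) * g₀ ∈
      rs U (emb j (j + 1)) := by
    intro a
    have hc := coef (rs U (emb j (j + 1))) (m + 2 + 1)
      (fun k => lf w' ^ k * lf a ^ (m + 2 - k) * C (((m + 2).choose k : ℕ) : ℂ) * g₀) (by
        intro t
        have := hK (t • w' + a)
        rw [lf_add, lf_smul, hm, add_pow, Finset.sum_mul] at this
        convert this using 1
        refine Finset.sum_congr rfl (fun k _ => ?_)
        rw [smul_eq_C_mul, mul_pow, map_pow]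
        simp only [map_natCast]
        ring) 1 (by omega)
    have e : m + 2 - 1 = m + 1 := by omega
    simpa [e] using hc
  have h2 := coef (rs U (emb j (j + 1))) (m + 1 + 1)
      (fun k => lf w ^ k * X z ^ (m + 1 - k) * C (((m + 1).choose k : ℕ) : ℂ) *
        (lf w' * C ((m + 2 : ℕ) : ℂ) * g₀)) (by
        intro t
        have := h1 (t • w + Pi.single z 1)
        rw [lf_add, lf_smul, lf_single, add_pow, Finset.mul_sum, Finset.sum_mul,
          Finset.sum_mul] at this
        convert this using 1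
        refine Finset.sum_congr rfl (fun k _ => ?_)
        rw [smul_eq_C_mul, mul_pow, map_pow]
        simp only [map_natCast]
        ring) 1 (by omega)
  have e : m + 1 - 1 = m := by omega
  rw [e, Nat.choose_one_right, pow_one] at h2
  have h3 := (rs U (emb j (j + 1))).smul_mem ((((m + 1 : ℕ) : ℂ) * ((m + 2 : ℕ) : ℂ))⁻¹) h2
  have hne : (((m + 1 : ℕ) : ℂ) * ((m + 2 : ℕ) : ℂ)) ≠ 0 :=
    mul_ne_zero (Nat.cast_ne_zero.2 (by omega)) (Nat.cast_ne_zero.2 (by omega))
  have e2 : lf w * X z ^ m * C ((m + 1 : ℕ) : ℂ) * (lf w' * C ((m + 2 : ℕ) : ℂ) * g₀) =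
      (((m + 1 : ℕ) : ℂ) * ((m + 2 : ℕ) : ℂ)) • (lf w * lf w' * (X z ^ m * g₀)) := by
    rw [smul_eq_C_mul, map_mul]; ring
  rw [e2, smul_smul, inv_mul_cancel₀ hne, one_smul] at h3
  exact h3

end Pool.Agent.W2helper66.SOS
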