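import Mathlib

/-!
# SOS conjecture, last case, piece K7 (`Base`), part 1 : vector valued forms in two variables
-/

set_option autoImplicit false

open scoped ComplexConjugate InnerProductSpace

namespace Pool.Agent.W2helper66.SOS.Base

variable {H : Type*} [NormedAddCommGroup H] [InnerProductSpace ℂ H]


def Lf (l : Fin 2 → H) (x y : ℂ) : H := x • l 0 + y • l 1

def Rf (r : Fin 3 → H) (x y : ℂ) : H := x ^ 2 • r 0 + (x * y) • r 1 + y ^ 2 • r 2

def Tf (t : Fin 4 → H) (x y : ℂ) : H :=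
  x ^ 3 • t 0 + (x ^ 2 * y) • t 1 + (x * y ^ 2) • t 2 + y ^ 3 • t 3

def ss (x y x' y' : ℂ) : ℂ := x * conj x' + y * conj y'

structure HS (l : Fin 2 → H) (r : Fin 3 → H) (t : Fin 4 → H) : Prop where
  e2 : ∀ x y x' y', ⟪Tf t x' y', Lf l x y⟫_ℂ = 0
  e1 : ∀ x y x' y', ⟪Tf t x' y', Rf r x y⟫_ℂ = ss x y x' y' * ⟪Rf r x' y', Lf l x y⟫_ℂ
  e0 : ∀ x y x' y', ⟪Tf t x' y', Tf t x y⟫_ℂ = ss x y x' y' * ⟪Rf r x' y', Rf r x y⟫_ℂ
      - ss x y x' y' ^ 2 * ⟪Lf l x' y', Lf l x y⟫_ℂ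
  ind : ∀ v : H, (∀ x y, ⟪v, Lf l x y⟫_ℂ = 0) → (∀ x y, ⟪v, Rf r x y⟫_ℂ = 0) →
    (∀ x y, ⟪v, Tf t x y⟫_ℂ = 0) → v = 0
  tne : ∃ x y, Tf t x y ≠ 0

/-- `W` is the span of the values of `t` -/
structure HW (W : Submodule ℂ H) (t : Fin 4 → H) : Prop where
  mem : ∀ x y, Tf t x y ∈ W
  sp : ∀ u ∈ W, (∀ x y, ⟪Tf t x y, u⟫_ℂ = 0) → u = 0

theorem Lf_10 (l : Fin 2 → H) : Lf l 1 0 = l 0 := by simp [Lf]
theorem Lf_01 (l : Fin 2 → H) : Lf l 0 1 = l 1 := by simp [Lf]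
theorem Lf_11 (l : Fin 2 → H) : Lf l 1 1 = l 0 + l 1 := by simp [Lf]
theorem Rf_10 (r : Fin 3 → H) : Rf r 1 0 = r 0 := by simp [Rf]
theorem Rf_01 (r : Fin 3 → H) : Rf r 0 1 = r 2 := by simp [Rf]
theorem Rf_11 (r : Fin 3 → H) : Rf r 1 1 = r 0 + r 1 + r 2 := by simp [Rf]
theorem Tf_10 (t : Fin 4 → H) : Tf t 1 0 = t 0 := by simp [Tf]
theorem Tf_01 (t : Fin 4 → H) : Tf t 0 1 = t 3 := by simp [Tf]

theorem Rf_smul (r : Fin 3 → H) (c x y : ℂ) : Rf r (c * x) (c * y) = c ^ 2 • Rf r x y := by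
  unfold Rf; module

theorem Lf_smul (l : Fin 2 → H) (c x y : ℂ) : Lf l (c * x) (c * y) = c • Lf l x y := by
  unfold Lf; module

/-- rotated frame -/
def rl (l : Fin 2 → H) (p q : ℂ) : Fin 2 → H := ![Lf l p q, Lf l (-conj q) (conj p)]

def rr (r : Fin 3 → H) (p q : ℂ) : Fin 3 → H :=
  ![Rf r p q, (2 * p * (-conj q)) • r 0 + (p * conj p - q * conj q) • r 1 +
    (2 * q * conj p) • r 2, Rf r (-conj q) (conj p)]

def rt (t : Fin 4 → H) (p q : ℂ) : Fin 4 → H :=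
  ![Tf t p q,
    (3 * p ^ 2 * (-conj q)) • t 0 + (p ^ 2 * conj p + 2 * p * (-conj q) * q) • t 1 +
      (2 * p * q * conj p + (-conj q) * q ^ 2) • t 2 + (3 * q ^ 2 * conj p) • t 3,
    (3 * p * (conj q) ^ 2) • t 0 + ((conj q) ^ 2 * q + 2 * p * (-conj q) * conj p) • t 1 +
      (p * (conj p) ^ 2 + 2 * (-conj q) * q * conj p) • t 2 + (3 * q * (conj p) ^ 2) • t 3,
    Tf t (-conj q) (conj p)]

theorem Lf_rl (l : Fin 2 → H) (p q x y : ℂ) :
    Lf (rl l p q) x y = Lf l (x * p - y * conj q) (x * q + y * conj p) := by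
  simp only [Lf, rl, Matrix.cons_val_zero, Matrix.cons_val_one]
  module

theorem rr_zero (r : Fin 3 → H) (p q : ℂ) : rr r p q 0 = Rf r p q := rfl
theorem rr_one (r : Fin 3 → H) (p q : ℂ) : rr r p q 1 =
    (2 * p * (-conj q)) • r 0 + (p * conj p - q * conj q) • r 1 + (2 * q * conj p) • r 2 := rfl
theorem rr_two (r : Fin 3 → H) (p q : ℂ) : rr r p q 2 = Rf r (-conj q) (conj p) := rfl
theorem rt_zero (t : Fin 4 → H) (p q : ℂ) : rt t p q 0 = Tf t p q := rfl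
theorem rt_one (t : Fin 4 → H) (p q : ℂ) : rt t p q 1 =
    (3 * p ^ 2 * (-conj q)) • t 0 + (p ^ 2 * conj p + 2 * p * (-conj q) * q) • t 1 +
      (2 * p * q * conj p + (-conj q) * q ^ 2) • t 2 + (3 * q ^ 2 * conj p) • t 3 := rfl
theorem rt_two (t : Fin 4 → H) (p q : ℂ) : rt t p q 2 =
    (3 * p * (conj q) ^ 2) • t 0 + ((conj q) ^ 2 * q + 2 * p * (-conj q) * conj p) • t 1 +
      (p * (conj p) ^ 2 + 2 * (-conj q) * q * conj p) • t 2 + (3 * q * (conj p) ^ 2) • t 3 := rfl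
theorem rt_three (t : Fin 4 → H) (p q : ℂ) : rt t p q 3 = Tf t (-conj q) (conj p) := rfl

theorem Rf_rr (r : Fin 3 → H) (p q x y : ℂ) :
    Rf (rr r p q) x y = Rf r (x * p - y * conj q) (x * q + y * conj p) := by
  rw [show Rf (rr r p q) x y = x ^ 2 • rr r p q 0 + (x * y) • rr r p q 1 + y ^ 2 • rr r p q 2
    from rfl, rr_zero, rr_one, rr_two]
  unfold Rf
  module

theorem Tf_rt (t : Fin 4 → H) (p q x y : ℂ) :
    Tf (rt t p q) x y = Tf t (x * p - y * conj q) (x * q + y * conj p) := by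
  rw [show Tf (rt t p q) x y = x ^ 3 • rt t p q 0 + (x ^ 2 * y) • rt t p q 1 +
    (x * y ^ 2) • rt t p q 2 + y ^ 3 • rt t p q 3 from rfl, rt_zero, rt_one, rt_two, rt_three]
  unfold Tf
  module

theorem ss_rot {p q : ℂ} (hpq : p * conj p + q * conj q = 1) (x y x' y' : ℂ) :
    ss (x * p - y * conj q) (x * q + y * conj p) (x' * p - y' * conj q) (x' * q + y' * conj p) =
      ss x y x' y' := by
  unfold ss
  simp only [map_sub, map_add, map_mul, Complex.conj_conj]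
  linear_combination (x * conj x' + y * conj y') * hpq

theorem rot_surj {p q : ℂ} (hpq : p * conj p + q * conj q = 1) (x y : ℂ) :
    ∃ x' y', x = x' * p - y' * conj q ∧ y = x' * q + y' * conj p := by
  refine ⟨x * conj p + y * conj q, -x * q + y * p, ?_, ?_⟩
  · linear_combination (-x) * hpq
  · linear_combination (-y) * hpq

theorem HS.rot {l : Fin 2 → H} {r : Fin 3 → H} {t : Fin 4 → H} (h : HS l r t) {p q : ℂ}
    (hpq : p * conj p + q * conj q = 1) : HS (rl l p q) (rr r p q) (rt t p q) where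
  e2 := fun x y x' y' => by rw [Tf_rt, Lf_rl]; exact h.e2 _ _ _ _
  e1 := fun x y x' y' => by
    rw [Tf_rt, Rf_rr, Rf_rr, Lf_rl, h.e1, ss_rot hpq]
  e0 := fun x y x' y' => by
    rw [Tf_rt, Tf_rt, Rf_rr, Rf_rr, Lf_rl, Lf_rl, h.e0, ss_rot hpq]
  ind := fun v h1 h2 h3 => by
    apply h.ind v
    · intro x y
      obtain ⟨x', y', hx, hy⟩ := rot_surj hpq x y
      rw [hx, hy, ← Lf_rl]; exact h1 _ _
    · intro x y
      obtain ⟨x', y', hx, hy⟩ := rot_surj hpq x y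
      rw [hx, hy, ← Rf_rr]; exact h2 _ _
    · intro x y
      obtain ⟨x', y', hx, hy⟩ := rot_surj hpq x y
      rw [hx, hy, ← Tf_rt]; exact h3 _ _
  tne := by
    obtain ⟨x, y, hxy⟩ := h.tne
    obtain ⟨x', y', hx, hy⟩ := rot_surj hpq x y
    exact ⟨x', y', by rw [Tf_rt, ← hx, ← hy]; exact hxy⟩

theorem HW.rot {W : Submodule ℂ H} {t : Fin 4 → H} (h : HW W t) {p q : ℂ}
    (hpq : p * conj p + q * conj q = 1) : HW W (rt t p q) where
  mem := fun x y => by rw [Tf_rt]; exact h.mem _ _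
  sp := fun u hu h1 => by
    apply h.sp u hu
    intro x y
    obtain ⟨x', y', hx, hy⟩ := rot_surj hpq x y
    rw [hx, hy, ← Tf_rt]; exact h1 _ _

/-- normalisation of a nonzero vector -/
theorem unit_of_ne {p q : ℂ} (h : p ≠ 0 ∨ q ≠ 0) :
    ∃ c : ℂ, c ≠ 0 ∧ (c * p) * conj (c * p) + (c * q) * conj (c * q) = 1 := by
  have hpos : 0 < ‖p‖ ^ 2 + ‖q‖ ^ 2 := by
    rcases h with h | h
    · have : 0 < ‖p‖ := norm_pos_iff.2 h
      positivity
    · have : 0 < ‖q‖ := norm_pos_iff.2 h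
      positivity
  set n : ℝ := ‖p‖ ^ 2 + ‖q‖ ^ 2 with hn
  refine ⟨((Real.sqrt n)⁻¹ : ℝ), ?_, ?_⟩
  · rw [Ne, Complex.ofReal_eq_zero]
    exact inv_ne_zero (Real.sqrt_pos.2 hpos).ne'
  · rw [Complex.mul_conj, Complex.mul_conj, Complex.normSq_eq_norm_sq, Complex.normSq_eq_norm_sq,
      norm_mul, norm_mul, Complex.norm_real, Real.norm_of_nonneg (by positivity)]
    rw [← Complex.ofReal_add]
    have : ((Real.sqrt n)⁻¹ * ‖p‖) ^ 2 + ((Real.sqrt n)⁻¹ * ‖q‖) ^ 2 = 1 := by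
      rw [mul_pow, mul_pow, ← mul_add, ← hn, inv_pow, Real.sq_sqrt hpos.le]
      exact inv_mul_cancel₀ hpos.ne'
    rw [this, Complex.ofReal_one]

theorem quad_zero (a b c : ℂ) : ∃ p q : ℂ, (p ≠ 0 ∨ q ≠ 0) ∧ a * p ^ 2 + b * (p * q) + c * q ^ 2 = 0 := by
  by_cases ha : a = 0
  · exact ⟨1, 0, Or.inl one_ne_zero, by rw [ha]; ring⟩
  · obtain ⟨s, hs⟩ := IsAlgClosed.exists_pow_nat_eq (discrim a b c) (n := 2) two_pos
    obtain ⟨x, hx⟩ := exists_quadratic_eq_zero ha ⟨s, by rw [← hs]; ring⟩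
    exact ⟨x, 1, Or.inr one_ne_zero, by linear_combination hx⟩

/-- a quadratic polynomial is somewhere small -/
theorem quad_small (a b c : ℂ) {ε : ℝ} (hε : 0 < ε) :
    ∃ x : ℂ, ‖a * x ^ 2 + b * x + c‖ ^ 2 < ε * (‖x‖ ^ 2 + 1) := by
  by_cases ha : a = 0
  · by_cases hb : b = 0
    · refine ⟨((‖c‖ / Real.sqrt ε : ℝ) : ℂ), ?_⟩
      rw [ha, hb]
      simp only [zero_mul, zero_add, Complex.norm_real]
      rw [Real.norm_of_nonneg (by positivity), div_pow, Real.sq_sqrt hε.le, mul_add,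
        mul_div_cancel₀ _ hε.ne']
      linarith
    · refine ⟨-c / b, ?_⟩
      have : a * (-c / b) ^ 2 + b * (-c / b) + c = 0 := by rw [ha]; field_simp; ring
      rw [this]; simp; positivity
  · obtain ⟨s, hs⟩ := IsAlgClosed.exists_pow_nat_eq (discrim a b c) (n := 2) two_pos
    obtain ⟨x, hx⟩ := exists_quadratic_eq_zero ha ⟨s, by rw [← hs]; ring⟩
    refine ⟨x, ?_⟩
    have : a * x ^ 2 + b * x + c = 0 := by linear_combination hx
    rw [this]; simp; positivity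

/-- orthogonal nonzero vectors in a subspace -/
theorem orth_card [FiniteDimensional ℂ H] {W : Submodule ℂ H} {k : ℕ} (v : Fin k → H)
    (hv : ∀ i, v i ∈ W) (h0 : ∀ i, v i ≠ 0) (ho : ∀ i j, i ≠ j → ⟪v i, v j⟫_ℂ = 0) :
    k ≤ Module.finrank ℂ W := by
  have h1 : LinearIndependent ℂ v :=
    linearIndependent_of_ne_zero_of_inner_eq_zero h0 (fun i j hij => ho i j hij)
  have h2 : LinearIndependent ℂ (fun i => (⟨v i, hv i⟩ : W)) := by
    apply LinearIndependent.of_comp W.subtype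
    exact h1
  simpa using h2.fintype_card_le_finrank

theorem expand [FiniteDimensional ℂ H] {W : Submodule ℂ H} {k : ℕ} (v : Fin k → H)
    (hv : ∀ i, v i ∈ W) (h0 : ∀ i, v i ≠ 0) (ho : ∀ i j, i ≠ j → ⟪v i, v j⟫_ℂ = 0)
    (hk : Module.finrank ℂ W = k) {u : H} (hu : u ∈ W) :
    u = ∑ i, (⟪v i, u⟫_ℂ / ⟪v i, v i⟫_ℂ) • v i := by
  by_contra hne
  set u' := u - ∑ i, (⟪v i, u⟫_ℂ / ⟪v i, v i⟫_ℂ) • v i with hu'
  have hu'0 : u' ≠ 0 := sub_ne_zero.2 hne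
  have hu'W : u' ∈ W := W.sub_mem hu (W.sum_mem (fun i _ => W.smul_mem _ (hv i)))
  have hort : ∀ j, ⟪v j, u'⟫_ℂ = 0 := by
    intro j
    rw [hu', inner_sub_right, inner_sum, Finset.sum_eq_single j]
    · rw [inner_smul_right, div_mul_cancel₀ _ (inner_self_ne_zero.2 (h0 j)), sub_self]
    · intro i _ hij
      rw [inner_smul_right, ho j i (Ne.symm hij), mul_zero]
    · intro hh; exact absurd (Finset.mem_univ j) hh
  have := orth_card (W := W) (Fin.cons u' v : Fin (k + 1) → H)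
    (by intro i; refine Fin.cases ?_ (fun j => ?_) i
        · simpa using hu'W
        · simpa using hv j)
    (by intro i; refine Fin.cases ?_ (fun j => ?_) i
        · simpa using hu'0
        · simpa using h0 j)
    (by
      intro i j
      refine Fin.cases ?_ (fun a => ?_) i
      · refine Fin.cases ?_ (fun b => ?_) j
        · intro h; exact absurd rfl h
        · intro _
          simp only [Fin.cons_zero, Fin.cons_succ]
          rw [← inner_conj_symm, hort, map_zero]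
      · refine Fin.cases ?_ (fun b => ?_) j
        · intro _
          simp only [Fin.cons_zero, Fin.cons_succ]
          exact hort a
        · intro h
          simp only [Fin.cons_succ]
          exact ho a b (fun hab => h (by rw [hab])))
  omega

theorem expand2 [FiniteDimensional ℂ H] {W : Submodule ℂ H} {a b : H} (ha : a ∈ W) (hb : b ∈ W)
    (ha0 : a ≠ 0) (hb0 : b ≠ 0) (hab : ⟪a, b⟫_ℂ = 0) (hk : Module.finrank ℂ W = 2)
    {u : H} (hu : u ∈ W) : u = (⟪a, u⟫_ℂ / ⟪a, a⟫_ℂ) • a + (⟪b, u⟫_ℂ / ⟪b, b⟫_ℂ) • b := by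
  have hba : ⟪b, a⟫_ℂ = 0 := by rw [← inner_conj_symm, hab, map_zero]
  have := expand (W := W) ![a, b] (by intro i; fin_cases i <;> simpa)
    (by intro i; fin_cases i <;> simpa)
    (by intro i j hij; fin_cases i <;> fin_cases j <;> simp_all) hk hu
  simpa [Fin.sum_univ_two] using this

theorem expand1 [FiniteDimensional ℂ H] {W : Submodule ℂ H} {a : H} (ha : a ∈ W)
    (ha0 : a ≠ 0) (hk : Module.finrank ℂ W = 1)
    {u : H} (hu : u ∈ W) : u = (⟪a, u⟫_ℂ / ⟪a, a⟫_ℂ) • a := by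
  have := expand (W := W) ![a] (by intro i; fin_cases i; simpa)
    (by intro i; fin_cases i; simpa)
    (by intro i j hij; fin_cases i <;> fin_cases j <;> simp_all) hk hu
  simpa using this

theorem expand3 [FiniteDimensional ℂ H] {W : Submodule ℂ H} {a b c : H} (ha : a ∈ W) (hb : b ∈ W)
    (hc : c ∈ W) (ha0 : a ≠ 0) (hb0 : b ≠ 0) (hc0 : c ≠ 0) (hab : ⟪a, b⟫_ℂ = 0) (hac : ⟪a, c⟫_ℂ = 0)
    (hbc : ⟪b, c⟫_ℂ = 0) (hk : Module.finrank ℂ W = 3)
    {u : H} (hu : u ∈ W) :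
    u = (⟪a, u⟫_ℂ / ⟪a, a⟫_ℂ) • a + (⟪b, u⟫_ℂ / ⟪b, b⟫_ℂ) • b + (⟪c, u⟫_ℂ / ⟪c, c⟫_ℂ) • c := by
  have hba : ⟪b, a⟫_ℂ = 0 := by rw [← inner_conj_symm, hab, map_zero]
  have hca : ⟪c, a⟫_ℂ = 0 := by rw [← inner_conj_symm, hac, map_zero]
  have hcb : ⟪c, b⟫_ℂ = 0 := by rw [← inner_conj_symm, hbc, map_zero]
  have := expand (W := W) ![a, b, c] (by intro i; fin_cases i <;> simpa)
    (by intro i; fin_cases i <;> simpa)
    (by intro i j hij; fin_cases i <;> fin_cases j <;> simp_all) hk hu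
  simpa [Fin.sum_univ_three] using this

/-- a nonzero vector of `W` orthogonal to fewer than `dim W` vectors -/
theorem exists_orth [FiniteDimensional ℂ H] {W : Submodule ℂ H} {k : ℕ} (v : Fin k → H)
    (hk : k < Module.finrank ℂ W) : ∃ f ∈ W, f ≠ 0 ∧ ∀ i, ⟪v i, f⟫_ℂ = 0 := by
  let Φ : W →ₗ[ℂ] (Fin k → ℂ) :=
    LinearMap.pi (fun i => (innerₛₗ ℂ (v i)) ∘ₗ W.subtype)
  have hker : LinearMap.ker Φ ≠ ⊥ := by
    apply LinearMap.ker_ne_bot_of_finrank_lt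
    simpa using hk
  obtain ⟨f, hf, hf0⟩ := Submodule.exists_mem_ne_zero_of_ne_bot hker
  refine ⟨f, f.2, fun h => hf0 (Subtype.ext h), fun i => ?_⟩
  have := congrFun (LinearMap.mem_ker.1 hf) i
  simpa [Φ] using this

end Pool.Agent.W2helper66.SOS.Base
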