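import Pool.Agent.W2helper66.SOS.BaseTwo
import Pool.Agent.W2helper54.SOS.Norm

/-!
# SOS, last case, piece K7 : `Base` from the sub-pieces
-/

set_option autoImplicit false

open scoped ComplexConjugate InnerProductSpace

namespace Pool.Agent.W2helper66.SOS.Base

open Pool.Agent.W2helper74.SOS Pool.Agent.W2helper54.SOS

theorem inner_H4 (u v : H4) : ⟪u, v⟫_ℂ = ∑ j, v j * conj (u j) := by
  rw [PiLp.inner_apply]
  rfl

def vl (l : Fin 4 → Fin 2 → ℂ) : Fin 2 → H4 := fun i => WithLp.toLp 2 (fun j => l j i)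
def vr (r : Fin 4 → Fin 3 → ℂ) : Fin 3 → H4 := fun i => WithLp.toLp 2 (fun j => r j i)
def vt (t : Fin 4 → Fin 4 → ℂ) : Fin 4 → H4 := fun i => WithLp.toLp 2 (fun j => t j i)

theorem Lf_vl (l : Fin 4 → Fin 2 → ℂ) (x y : ℂ) (j : Fin 4) : Lf (vl l) x y j = q1 (l j) x y := by
  simp [Lf, vl, q1]; ring

theorem Rf_vr (r : Fin 4 → Fin 3 → ℂ) (x y : ℂ) (j : Fin 4) : Rf (vr r) x y j = q2 (r j) x y := by
  simp [Rf, vr, q2]; ring

theorem Tf_vt (t : Fin 4 → Fin 4 → ℂ) (x y : ℂ) (j : Fin 4) : Tf (vt t) x y j = q3 (t j) x y := by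
  simp [Tf, vt, q3]; ring

theorem q3_cj' (a : Fin 4 → ℂ) (x y : ℂ) : q3 (cj a) (conj x) (conj y) = conj (q3 a x y) := by
  simp [q3, cj]

theorem q2_cj' (a : Fin 3 → ℂ) (x y : ℂ) : q2 (cj a) (conj x) (conj y) = conj (q2 a x y) := by
  simp [q2, cj]

theorem q1_cj' (a : Fin 2 → ℂ) (x y : ℂ) : q1 (cj a) (conj x) (conj y) = conj (q1 a x y) := by
  simp [q1, cj]

theorem hs_of_sys {l : Fin 4 → Fin 2 → ℂ} {r : Fin 4 → Fin 3 → ℂ} {t : Fin 4 → Fin 4 → ℂ}
    (h : Sys 0 l r t) (ht : t ≠ 0)
    (hi : ∀ v : Fin 4 → ℂ, (∀ i, ∑ j, v j * l j i = 0) → (∀ i, ∑ j, v j * r j i = 0) →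
      (∀ i, ∑ j, v j * t j i = 0) → v = 0) : HS (vl l) (vr r) (vt t) where
  e2 := fun x y x' y' => by
    have := h.E2 x y (conj x') (conj y')
    simp only [q3_cj', Pi.zero_apply, zero_mul, Finset.sum_const_zero, mul_zero] at this
    rw [inner_H4]
    simp only [Lf_vl, Tf_vt]
    exact this
  e1 := fun x y x' y' => by
    have := h.E1 x y (conj x') (conj y')
    simp only [q3_cj', q2_cj', Pi.zero_apply, zero_mul, Finset.sum_const_zero, mul_zero,
      sub_zero] at this
    rw [inner_H4, inner_H4]
    simp only [Lf_vl, Tf_vt, Rf_vr]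
    exact this
  e0 := fun x y x' y' => by
    have := h.E0 x y (conj x') (conj y')
    simp only [q3_cj', q2_cj', q1_cj', Pi.zero_apply, zero_mul, Finset.sum_const_zero, mul_zero,
      add_zero] at this
    rw [inner_H4, inner_H4, inner_H4]
    simp only [Lf_vl, Tf_vt, Rf_vr]
    exact this
  ind := fun v h1 h2 h3 => by
    have hl : ∀ i, ⟪v, vl l i⟫_ℂ = 0 := by
      intro i
      fin_cases i
      · have := h1 1 0; rwa [Lf_10] at this
      · have := h1 0 1; rwa [Lf_01] at this
    have hr : ∀ i, ⟪v, vr r i⟫_ℂ = 0 := by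
      have a0 := h2 1 0
      have a2 := h2 0 1
      have a1 := h2 1 1
      rw [Rf_10] at a0
      rw [Rf_01] at a2
      rw [Rf_11, inner_add_right, inner_add_right, a0, a2, add_zero, zero_add] at a1
      intro i
      fin_cases i
      · exact a0
      · exact a1
      · exact a2
    have ht' : ∀ i, ⟪v, vt t i⟫_ℂ = 0 := by
      have a0 := h3 1 0
      have a3 := h3 0 1
      have a1 := h3 1 1
      have a2 := h3 1 (-1)
      rw [Tf_10] at a0
      rw [Tf_01] at a3
      unfold Tf at a1 a2
      simp only [inner_add_right, inner_smul_right, a0, a3] at a1 a2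
      intro i
      fin_cases i
      · exact a0
      · change ⟪v, vt t 1⟫_ℂ = 0
        linear_combination (a1 - a2) / 2
      · change ⟪v, vt t 2⟫_ℂ = 0
        linear_combination (a1 + a2) / 2
      · exact a3
    have hz := hi (fun j => conj (v j))
      (fun i => by
        have := hl i
        rw [inner_H4] at this
        rw [← this]
        exact Finset.sum_congr rfl fun j _ => mul_comm _ _)
      (fun i => by
        have := hr i
        rw [inner_H4] at this
        rw [← this]
        exact Finset.sum_congr rfl fun j _ => mul_comm _ _)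
      (fun i => by
        have := ht' i
        rw [inner_H4] at this
        rw [← this]
        exact Finset.sum_congr rfl fun j _ => mul_comm _ _)
    ext j
    have := congrFun hz j
    simpa using this
  tne := by
    by_contra hno
    push Not at hno
    apply ht
    funext j
    have : ∀ x y, q3 (t j) x y = 0 := by
      intro x y
      rw [← Tf_vt, hno]
      rfl
    exact q3_eq_zero this

theorem inner_Tf {t : Fin 4 → H4} (f : H4) (x y : ℂ) :
    ⟪f, Tf t x y⟫_ℂ = q3 (fun a => ⟪f, t a⟫_ℂ) x y := by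
  unfold Tf q3
  rw [inner_add_right, inner_add_right, inner_add_right, inner_smul_right, inner_smul_right,
    inner_smul_right, inner_smul_right]
  ring

theorem not_one {l : Fin 2 → H4} {r : Fin 3 → H4} {t : Fin 4 → H4} {W : Submodule ℂ H4}
    (h : HS l r t) (hW : HW W t) (h1 : Module.finrank ℂ W = 1) : False := by
  obtain ⟨f, hf, hf0, -⟩ := exists_orth (W := W) ![] (by rw [h1]; norm_num)
  have hexp : ∀ x y, Tf t x y = (⟪f, Tf t x y⟫_ℂ / ⟪f, f⟫_ℂ) • f :=
    fun x y => expand1 hf hf0 h1 (hW.mem x y)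
  have hff : ⟪f, f⟫_ℂ ≠ 0 := inner_self_ne_zero.2 hf0
  set τ : Fin 4 → ℂ := fun a => ⟪f, t a⟫_ℂ with hτ
  have hprod : ∀ x y, q3 τ x y * q3 (st3 τ) x y = 0 := by
    intro x y
    have h0 := h.e0 x y (-conj y) (conj x)
    have hs : ss x y (-conj y) (conj x) = 0 := by
      unfold ss
      simp only [map_neg, Complex.conj_conj]
      ring
    rw [hs, zero_mul, zero_pow two_ne_zero, zero_mul, sub_zero, hexp x y,
      hexp (-conj y) (conj x), inner_smul_left, inner_smul_right] at h0
    rw [q3_st, q3_cj]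
    rw [inner_Tf, inner_Tf, map_div₀] at h0
    have e : star (-y) = -conj y := by simp
    rw [e]
    change q3 τ x y * conj (q3 τ (-conj y) (conj x)) = 0
    rcases mul_eq_zero.1 h0 with h5 | h5
    · rcases div_eq_zero_iff.1 h5 with h6 | h6
      · rw [h6, mul_zero]
      · exact absurd ((map_eq_zero (starRingEnd ℂ)).1 h6) hff
    · rcases mul_eq_zero.1 h5 with h6 | h6
      · rcases div_eq_zero_iff.1 h6 with h7 | h7
        · rw [h7, zero_mul]
        · exact absurd h7 hff
      · exact absurd h6 hff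
  have hz : τ = 0 := by
    rcases (isPoly_q3 τ).mul_eq_zero (isPoly_q3 (st3 τ)) hprod with h5 | h5
    · exact q3_eq_zero h5
    · exact st3_zero h5
  obtain ⟨x, y, hxy⟩ := h.tne
  apply hxy
  rw [hexp x y, inner_Tf]
  have : q3 (fun a => ⟪f, t a⟫_ℂ) x y = q3 τ x y := rfl
  rw [this, hz]
  simp [q3]

theorem base_of (c0 : CaseZero) (c3 : CaseThree) (cr : CaseTwoRed) : Pool.Agent.W2helper74.SOS.Base := by
  intro l r t hsys ht hi
  have h := hs_of_sys hsys ht hi
  generalize vl l = l at h
  generalize vr r = r at h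
  generalize vt t = t at h
  by_cases hl : ∀ x y, Lf l x y = 0
  · exact c0 l r t h hl
  push Not at hl
  set W : Submodule ℂ H4 := Submodule.span ℂ (Set.range t) with hWdef
  have hW : HW W t := by
    constructor
    · intro x y
      unfold Tf
      have hm : ∀ a, t a ∈ W := fun a => Submodule.subset_span ⟨a, rfl⟩
      exact W.add_mem (W.add_mem (W.add_mem (W.smul_mem _ (hm 0)) (W.smul_mem _ (hm 1)))
        (W.smul_mem _ (hm 2))) (W.smul_mem _ (hm 3))
    · intro u hu hT
      have a0 := hT 1 0
      have a3 := hT 0 1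
      have a1 := hT 1 1
      have a2 := hT 1 (-1)
      rw [Tf_10] at a0
      rw [Tf_01] at a3
      unfold Tf at a1 a2
      simp only [inner_add_left, inner_smul_left, a0, a3] at a1 a2
      have ha : ∀ a, ⟪t a, u⟫_ℂ = 0 := by
        intro i
        fin_cases i
        · exact a0
        · change ⟪t 1, u⟫_ℂ = 0
          simp only [map_one, one_pow, map_neg, map_mul, map_pow] at a1 a2
          linear_combination (a1 - a2) / 2
        · change ⟪t 2, u⟫_ℂ = 0
          simp only [map_one, one_pow, map_neg, map_mul, map_pow] at a1 a2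
          linear_combination (a1 + a2) / 2
        · exact a3
      have hall : ∀ w ∈ W, ⟪w, u⟫_ℂ = 0 := by
        intro w hw
        induction hw using Submodule.span_induction with
        | mem x hx =>
          obtain ⟨a, rfl⟩ := hx
          exact ha a
        | zero => exact inner_zero_left _
        | add x y _ _ hx hy => rw [inner_add_left, hx, hy, add_zero]
        | smul c x _ hx => rw [inner_smul_left, hx, mul_zero]
      exact inner_self_eq_zero.1 (hall u hu)
  have hle : Module.finrank ℂ W ≤ 4 := by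
    have := Submodule.finrank_le W
    simpa using this
  have hH : Module.finrank ℂ H4 = 4 := by simp
  have hlp := h.l_perp hW
  rcases Nat.lt_or_ge (Module.finrank ℂ W) 1 with h0 | h0
  · have : W = ⊥ := by
      apply Submodule.finrank_eq_zero.1
      omega
    obtain ⟨x, y, hxy⟩ := h.tne
    apply hxy
    have hm := hW.mem x y
    rw [this] at hm
    exact (Submodule.mem_bot ℂ).1 hm
  rcases Nat.lt_or_ge (Module.finrank ℂ W) 2 with h1 | h1
  · exact not_one h hW (by omega)
  rcases Nat.lt_or_ge (Module.finrank ℂ W) 3 with h2 | h2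
  · obtain ⟨l', r', t', σ1, σ2, g1, g2, g3, g4, g5, g6, g7, g8, g9, g10⟩ :=
      cr l r t W h hW (by omega) hl
    exact caseTwoNF l' r' t' W σ1 σ2 g1 g2 (by omega) g3 g4 g5 g6 g7 g8 g9 g10
  rcases Nat.lt_or_ge (Module.finrank ℂ W) 4 with h3 | h3
  · exact c3 l r t W h hW (by omega) hl
  · have : W = ⊤ := by
      apply Submodule.eq_top_of_finrank_eq
      rw [hH]; omega
    obtain ⟨x, y, hxy⟩ := hl
    apply hxy
    have := hlp (Lf l x y) (by rw [this]; exact Submodule.mem_top) x y
    exact inner_self_eq_zero.1 this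

end Pool.Agent.W2helper66.SOS.Base
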