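import Pool.Agent.W2helper66.SOS.BaseMain

/-!
# SOS, last case, piece K7 : the normal form for `finrank W = 2`
-/

set_option autoImplicit false

open scoped ComplexConjugate InnerProductSpace

namespace Pool.Agent.W2helper66.SOS.Base

open Pool.Agent.W2helper74.SOS Pool.Agent.W2helper54.SOS

theorem isPoly_quartic (a b c d e : ℂ) : IsPoly (fun x y => a * x ^ 4 + b * (x ^ 3 * y) +
    c * (x ^ 2 * y ^ 2) + d * (x * y ^ 3) + e * y ^ 4) :=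
  ⟨MvPolynomial.C a * MvPolynomial.X 0 ^ 4 +
    MvPolynomial.C b * (MvPolynomial.X 0 ^ 3 * MvPolynomial.X 1) +
    MvPolynomial.C c * (MvPolynomial.X 0 ^ 2 * MvPolynomial.X 1 ^ 2) +
    MvPolynomial.C d * (MvPolynomial.X 0 * MvPolynomial.X 1 ^ 3) +
    MvPolynomial.C e * MvPolynomial.X 1 ^ 4, fun x y => by simp⟩

theorem quartic_zero {a b c d e : ℂ} (h : ∀ x y : ℂ, a * x ^ 4 + b * (x ^ 3 * y) +
    c * (x ^ 2 * y ^ 2) + d * (x * y ^ 3) + e * y ^ 4 = 0) :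
    a = 0 ∧ b = 0 ∧ c = 0 := by
  have h0 := h 1 0
  have h1 := h 0 1
  have h2 := h 1 1
  have h3 := h 1 (-1)
  have h4 := h 1 2
  have ha : a = 0 := by linear_combination h0
  have he : e = 0 := by linear_combination h1
  have hc : c = 0 := by linear_combination (h2 + h3) / 2 - ha - he
  have hbd : b + d = 0 := by linear_combination (h2 - h3) / 2
  have hb : b = 0 := by linear_combination (8 * hbd - h4 + ha + 4 * hc + 16 * he) / 6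
  exact ⟨ha, hb, hc⟩

theorem ss_perp (x y : ℂ) : ss x y (-conj y) (conj x) = 0 := by
  unfold ss
  simp only [map_neg, Complex.conj_conj]
  ring

theorem ss_perp' (x y : ℂ) : ss (-conj y) (conj x) x y = 0 := by
  unfold ss
  ring

theorem inner_Rf_eq {r σ : Fin 3 → H4} {W : Submodule ℂ H4}
    (hp : ∀ a, ∀ u ∈ W, ⟪u, r a⟫_ℂ = ⟪u, σ a⟫_ℂ) {u : H4} (hu : u ∈ W) (x y : ℂ) :
    ⟪u, Rf r x y⟫_ℂ = ⟪u, Rf σ x y⟫_ℂ := by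
  rw [inner_Rf, inner_Rf, hp 0 u hu, hp 1 u hu, hp 2 u hu]

theorem Rf_mem {σ : Fin 3 → H4} {W : Submodule ℂ H4} (hσ : ∀ a, σ a ∈ W) (x y : ℂ) :
    Rf σ x y ∈ W := by
  unfold Rf
  exact W.add_mem (W.add_mem (W.smul_mem _ (hσ 0)) (W.smul_mem _ (hσ 1))) (W.smul_mem _ (hσ 2))

theorem srel {l : Fin 2 → H4} {r : Fin 3 → H4} {t : Fin 4 → H4} {W : Submodule ℂ H4}
    (h : HS l r t) (hW : HW W t) (hd : Module.finrank ℂ W = 2) {σ : Fin 3 → H4}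
    (hσ : ∀ a, σ a ∈ W) (hp : ∀ a, ∀ u ∈ W, ⟪u, r a⟫_ℂ = ⟪u, σ a⟫_ℂ) :
    ⟪σ 2, σ 0⟫_ℂ = 0 ∧ ⟪σ 2, σ 1⟫_ℂ = ⟪σ 1, σ 0⟫_ℂ ∧
      ⟪σ 1, σ 1⟫_ℂ = ⟪σ 0, σ 0⟫_ℂ + ⟪σ 2, σ 2⟫_ℂ := by
  obtain ⟨x0, y0, hxy0⟩ := h.tne
  set e : H4 := Tf t x0 y0 with he
  set τ : Fin 4 → ℂ := fun a => ⟪e, t a⟫_ℂ with hτ
  have hτ0 : τ ≠ 0 := by
    intro hz
    have h1 : ⟪e, Tf t x0 y0⟫_ℂ = q3 τ x0 y0 := inner_Tf e x0 y0
    rw [hz] at h1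
    have h2 : ⟪e, e⟫_ℂ = 0 := by
      rw [h1]; simp [q3]
    exact hxy0 (inner_self_eq_zero.1 h2)
  have hN : ∀ x y : ℂ, ⟪Rf σ (-conj y) (conj x), Rf σ x y⟫_ℂ =
      ⟪σ 2, σ 0⟫_ℂ * x ^ 4 + (⟪σ 2, σ 1⟫_ℂ - ⟪σ 1, σ 0⟫_ℂ) * (x ^ 3 * y) +
      (⟪σ 0, σ 0⟫_ℂ - ⟪σ 1, σ 1⟫_ℂ + ⟪σ 2, σ 2⟫_ℂ) * (x ^ 2 * y ^ 2) +
      (⟪σ 0, σ 1⟫_ℂ - ⟪σ 1, σ 2⟫_ℂ) * (x * y ^ 3) + ⟪σ 0, σ 2⟫_ℂ * y ^ 4 := by
    intro x y
    unfold Rf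
    simp only [inner_add_left, inner_add_right, inner_smul_left, inner_smul_right, map_neg,
      map_mul, map_pow, Complex.conj_conj]
    ring
  have hvan : ∀ x y : ℂ, Tf t x y ≠ 0 → Tf t (-conj y) (conj x) ≠ 0 →
      ⟪Rf σ (-conj y) (conj x), Rf σ x y⟫_ℂ = 0 := by
    intro x y h1 h2
    have hab : ⟪Tf t x y, Tf t (-conj y) (conj x)⟫_ℂ = 0 := by
      have := h.e0 (-conj y) (conj x) x y
      rw [ss_perp'] at this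
      rw [this]; ring
    have hbu : ⟪Tf t (-conj y) (conj x), Rf σ x y⟫_ℂ = 0 := by
      rw [← inner_Rf_eq hp (hW.mem _ _), h.e1, ss_perp, zero_mul]
    have hau : ⟪Tf t x y, Rf σ (-conj y) (conj x)⟫_ℂ = 0 := by
      rw [← inner_Rf_eq hp (hW.mem _ _), h.e1, ss_perp', zero_mul]
    rw [parseval2 hd (hW.mem x y) (hW.mem (-conj y) (conj x)) h1 h2 hab _ (Rf_mem hσ x y), hbu,
      inner_swap hau]
    ring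
  have hprod : ∀ x y, q3 τ x y * (q3 (st3 τ) x y * (⟪σ 2, σ 0⟫_ℂ * x ^ 4 +
      (⟪σ 2, σ 1⟫_ℂ - ⟪σ 1, σ 0⟫_ℂ) * (x ^ 3 * y) +
      (⟪σ 0, σ 0⟫_ℂ - ⟪σ 1, σ 1⟫_ℂ + ⟪σ 2, σ 2⟫_ℂ) * (x ^ 2 * y ^ 2) +
      (⟪σ 0, σ 1⟫_ℂ - ⟪σ 1, σ 2⟫_ℂ) * (x * y ^ 3) + ⟪σ 0, σ 2⟫_ℂ * y ^ 4)) = 0 := by
    intro x y
    rw [← hN]
    by_cases h1 : Tf t x y = 0
    · have : q3 τ x y = 0 := by
        rw [hτ, ← inner_Tf e x y, h1, inner_zero_right]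
      rw [this, zero_mul]
    · by_cases h2 : Tf t (-conj y) (conj x) = 0
      · have : q3 (st3 τ) x y = 0 := by
          rw [q3_st, q3_cj]
          have e' : star (-y) = -conj y := by simp
          rw [e']
          change conj (q3 τ (-conj y) (conj x)) = 0
          rw [hτ, ← inner_Tf e (-conj y) (conj x), h2, inner_zero_right, map_zero]
        rw [this]; ring
      · rw [hvan x y h1 h2]; ring
  have hz := ((isPoly_q3 τ).mul_eq_zero ((isPoly_q3 (st3 τ)).mul (isPoly_quartic _ _ _ _ _))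
    hprod).resolve_left (fun h5 => hτ0 (q3_eq_zero h5))
  have hz2 := ((isPoly_q3 (st3 τ)).mul_eq_zero (isPoly_quartic _ _ _ _ _)
    hz).resolve_left (fun h5 => hτ0 (st3_zero h5))
  obtain ⟨g1, g2, g3⟩ := quartic_zero hz2
  refine ⟨g1, sub_eq_zero.1 g2, ?_⟩
  linear_combination (-1) * g3

theorem exists_zero {W : Submodule ℂ H4} (hd : Module.finrank ℂ W = 2) {σ : Fin 3 → H4}
    (hσ : ∀ a, σ a ∈ W) (h20 : ⟪σ 2, σ 0⟫_ℂ = 0) (h21 : ⟪σ 2, σ 1⟫_ℂ = ⟪σ 1, σ 0⟫_ℂ)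
    (h11 : ⟪σ 1, σ 1⟫_ℂ = ⟪σ 0, σ 0⟫_ℂ + ⟪σ 2, σ 2⟫_ℂ) :
    ∃ p q : ℂ, (p ≠ 0 ∨ q ≠ 0) ∧ Rf σ p q = 0 := by
  by_cases h0 : σ 0 = 0
  · exact ⟨1, 0, Or.inl one_ne_zero, by rw [Rf_10, h0]⟩
  by_cases h2 : σ 2 = 0
  · exact ⟨0, 1, Or.inr one_ne_zero, by rw [Rf_01, h2]⟩
  have hA : ⟪σ 0, σ 0⟫_ℂ ≠ 0 := inner_self_ne_zero.2 h0
  have hB : ⟪σ 2, σ 2⟫_ℂ ≠ 0 := inner_self_ne_zero.2 h2
  have hAB : ⟪σ 0, σ 0⟫_ℂ + ⟪σ 2, σ 2⟫_ℂ ≠ 0 := by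
    rw [innC, innC, ← Complex.ofReal_add, Ne, Complex.ofReal_eq_zero]
    have : 0 < ‖σ 0‖ := norm_pos_iff.2 h0
    positivity
  have hex := expand2 (hσ 0) (hσ 2) h0 h2 (inner_swap h20) hd (hσ 1)
  have hpar := parseval2 hd (hσ 0) (hσ 2) h0 h2 (inner_swap h20) (σ 1) (hσ 1)
  have h12 : ⟪σ 1, σ 2⟫_ℂ = ⟪σ 0, σ 1⟫_ℂ := by
    rw [← inner_conj_symm, h21, inner_conj_symm]
  rw [h12, h21, h11] at hpar
  have hc : ⟪σ 1, σ 0⟫_ℂ * ⟪σ 0, σ 1⟫_ℂ = ⟪σ 0, σ 0⟫_ℂ * ⟪σ 2, σ 2⟫_ℂ := by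
    field_simp at hpar
    apply mul_left_cancel₀ hAB
    linear_combination (-1) * hpar
  have hab : (⟪σ 0, σ 1⟫_ℂ / ⟪σ 0, σ 0⟫_ℂ) * (⟪σ 2, σ 1⟫_ℂ / ⟪σ 2, σ 2⟫_ℂ) = 1 := by
    rw [h21]
    field_simp
    linear_combination hc
  refine ⟨⟪σ 0, σ 1⟫_ℂ / ⟪σ 0, σ 0⟫_ℂ, -1, Or.inr (by norm_num), ?_⟩
  unfold Rf
  generalize ⟪σ 0, σ 1⟫_ℂ / ⟪σ 0, σ 0⟫_ℂ = a at *
  generalize ⟪σ 2, σ 1⟫_ℂ / ⟪σ 2, σ 2⟫_ℂ = b at *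
  rw [hex]
  have : a ^ 2 • σ 0 + (a * -1) • (a • σ 0 + b • σ 2) + (-1 : ℂ) ^ 2 • σ 2 =
    (1 - a * b) • σ 2 := by module
  rw [this, hab, sub_self, zero_smul]

theorem caseTwoRed : CaseTwoRed := by
  intro l r t W h hW hd hl
  have hex : ∀ a, ∃ s ∈ W, ∀ u ∈ W, ⟪u, r a⟫_ℂ = ⟪u, s⟫_ℂ := by
    intro a
    obtain ⟨p, hp, q, hq, hpq⟩ := W.exists_add_mem_mem_orthogonal (r a)
    refine ⟨p, hp, fun u hu => ?_⟩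
    rw [hpq, inner_add_right, (W.mem_orthogonal q).1 hq u hu, add_zero]
  choose σ hσ hp using hex
  obtain ⟨g1, g2, g3⟩ := srel h hW hd hσ hp
  obtain ⟨p, q, hpq, hz⟩ := exists_zero hd hσ g1 g2 g3
  obtain ⟨c, hc, hcn⟩ := unit_of_ne hpq
  have h' := h.rot hcn
  have hW' := hW.rot hcn
  have hσ' : ∀ a, rr σ (c * p) (c * q) a ∈ W := by
    intro a
    fin_cases a
    · exact Rf_mem hσ _ _
    · exact W.add_mem (W.add_mem (W.smul_mem _ (hσ 0)) (W.smul_mem _ (hσ 1)))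
        (W.smul_mem _ (hσ 2))
    · exact Rf_mem hσ _ _
  have hp' : ∀ a, ∀ u ∈ W, ⟪u, rr r (c * p) (c * q) a⟫_ℂ = ⟪u, rr σ (c * p) (c * q) a⟫_ℂ := by
    intro a u hu
    fin_cases a
    · exact inner_Rf_eq hp hu _ _
    · change ⟪u, rr r (c * p) (c * q) 1⟫_ℂ = ⟪u, rr σ (c * p) (c * q) 1⟫_ℂ
      rw [rr_one, rr_one]
      simp only [inner_add_right, inner_smul_right, hp _ u hu]
    · exact inner_Rf_eq hp hu _ _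
  have hz' : rr σ (c * p) (c * q) 0 = 0 := by
    rw [rr_zero, Rf_smul, hz, smul_zero]
  obtain ⟨g1', g2', g3'⟩ := srel h' hW' hd hσ' hp'
  rw [hz', inner_zero_right] at g2'
  rw [hz', inner_zero_right, zero_add] at g3'
  refine ⟨_, _, _, rr σ (c * p) (c * q) 1, rr σ (c * p) (c * q) 2, h', hW', ?_, hσ' 1, hσ' 2,
    ?_, hp' 1, hp' 2, g3', g2'⟩
  · obtain ⟨x, y, hxy⟩ := hl
    obtain ⟨x', y', hx, hy⟩ := rot_surj hcn x y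
    refine ⟨x', y', ?_⟩
    rw [Lf_rl, ← hx, ← hy]
    exact hxy
  · intro u hu
    rw [hp' 0 u hu, hz', inner_zero_right]

end Pool.Agent.W2helper66.SOS.Base
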