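import Pool.Agent.W2helper66.SOS.Base1

/-!
# SOS, last case, piece K7 (`Base`): statements of the sub-pieces (with complete proofs in comments)

Notation: `z = (x,y)`, `w = (x',y')`, `s = ss x y x' y' = x x̄' + y ȳ'`, `L = Lf l`, `R = Rf r`, `T = Tf t`,
`⟪u,v⟫_ℂ` conjugate linear in the FIRST argument. `z^⊥ = (-ȳ, x̄)`, `s(z, z^⊥) = 0`.
`Base1.lean` has: `HS.rot`, `HW.rot` (rotation of the frame by `(p,q)`, `|p|²+|q|²=1`; `rl_zero`-type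
lemmas `rr_zero, rr_one, rr_two, rt_zero, ...`), `unit_of_ne`, `quad_zero`, `quad_small`, `expand1/2/3`,
`exists_orth`, `orth_card`. `Pool.Agent.W2helper54.SOS.Forms` has `IsPoly.mul_eq_zero`, `IsPoly.cancel`.
-/

set_option autoImplicit false

open scoped ComplexConjugate InnerProductSpace

namespace Pool.Agent.W2helper66.SOS.Base

abbrev H4 : Type := EuclideanSpace ℂ (Fin 4)


/-- (P0) `L ≡ 0`.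
Proof. Let `W` be the span of the `t a`. `e1` gives `⟪T w, R z⟫_ℂ = 0`, so `r a ∈ Wᗮ`; comparing coefficients
(in `z` and `w`) in `e0`: for `θ : Fin 4 → ℂ`,
`⟪∑ θ_a t_a, ∑ θ_a t_a⟫_ℂ = ⟪A,A⟫_ℂ + ⟪B,B⟫_ℂ`, `A = θ0 r0 + θ1 r1 + θ2 r2`, `B = θ1 r0 + θ2 r1 + θ3 r2`.
Hence `∑ θ_a t_a = 0` iff `A = 0` and `B = 0` (*). By `ind` no nonzero vector of `Wᗮ` is orthogonal to
`r0,r1,r2`; so (`exists_orth`) the `r_a` do not lie in a line if `finrank Wᗮ ≥ 2`, and are not contained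
in a plane if `finrank Wᗮ = 3`; `finrank Wᗮ = 4 - finrank W`.
* `finrank W = 4`: `Wᗮ = 0`, `r = 0`, so `T = 0` by `e0`, contradiction with `tne`. `finrank W = 0`: same.
* `finrank W = 3`: `Wᗮ` is a line, `R z = ϱ(z) f`; rotate so that `ϱ(1,0) = 0`, i.e. `r0 = 0`
  (`quad_zero`, `unit_of_ne`, `HS.rot`, `HW.rot`). (*) with `θ = (1,0,0,0)`: `t0 = 0`. With `r1 = ϱ1 f`,
  `r2 = ϱ2 f`, `(ϱ1,ϱ2) ≠ 0`, (*) with `θ = (0, ϱ2², -ϱ1ϱ2, ϱ1²)` gives a linear relation between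
  `t1,t2,t3`. So `finrank W ≤ 2`, contradiction.
* `finrank W = 2`: the triples `(t0,t1,t2)` and `(t1,t2,t3)` are dependent: (θ0,θ1,θ2) ≠ 0 with
  `θ0 r0 + θ1 r1 + θ2 r2 = 0`, `θ1 r0 + θ2 r1 = 0`, and `(θ1',θ2',θ3') ≠ 0` with
  `θ1' r1 + θ2' r2 = 0`, `θ1' r0 + θ2' r1 + θ3' r2 = 0`. If `θ1 = θ2 = 0` then `r0 = 0`, and the
  second relations put `r1, r2` on a line: contradiction. Same if `θ1' = θ2' = 0`. Otherwise `r0,r1` are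
  dependent and `r1,r2` are dependent; if `r1 ≠ 0` all `r_a` are on a line: contradiction. If `r1 = 0`
  then `r0,r2` are independent, the first relations give `θ0 = θ2 = 0`, `θ1 = 0`: contradiction.
* `finrank W = 1`: `t0,t1` dependent gives `θ0 r0 + θ1 r1 = 0`, so the `r_a` lie in a plane:
  contradiction. -/
def CaseZero : Prop := ∀ (l : Fin 2 → H4) (r : Fin 3 → H4) (t : Fin 4 → H4), HS l r t →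
  (∀ x y, Lf l x y = 0) → False

/-- (P3) `finrank W = 3`, `L ≢ 0`.
Proof. `Wᗮ` is a line containing the values of `L` (`e2`). So `L z = λ(z) g`, `λ` a nonzero linear form; rotate
so that `l0 = 0`, `g := l1 ≠ 0`, `δ = ⟪g,g⟫_ℂ`. `e1` at `z = (1,0),(0,1),(1,1)`: `r0 ∈ Wᗮ`,
`⟪r1,T w⟫_ℂ = x' G(w)`, `⟪r2, T w⟫_ℂ = y' G(w)` with `G(w) = ⟪g, R w⟫_ℂ`.
* `G ≡ 0`: `r1, r2 ∈ Wᗮ = ℂ g` and `R ⊥ g`, so `R = 0`, `e0` at `z = w = (0,1)`: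
  `⟪t3,t3⟫_ℂ = -⟪l1,l1⟫_ℂ`, contradiction.
* `G ≢ 0`. `n_i = r_i - (⟪g,r_i⟫_ℂ/δ) g ∈ W` (i=1,2), so, with `λ(z) = y` and `N(z) = x n1 + y n2`,
  (**) `L z = λ(z) g`, `R z = (G(z)/δ) g + λ(z) N(z)`, `⟪n1,T w⟫_ℂ = x' G(w)`, `⟪n2,T w⟫_ℂ = y' G(w)`.
  (**) is preserved by a rotation `(p,q)` with `n1' = p n1 + q n2`, `n2' = -q̄ n1 + p̄ n2`, `λ` becoming a
  general nonzero linear form `λ(z) = a x + b y`. Rotate so that `⟪n1,n2⟫_ℂ = 0` (zero of the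
  quadratic form `p²⟪n2,n1⟫_ℂ + pq(ν22-ν11) - q²⟪n1,n2⟫_ℂ`). `ν_i = ⟪n_i,n_i⟫_ℂ > 0` as `G ≢ 0`.
  Take `f ∈ W` nonzero, orthogonal to `n1,n2`, `φ = ⟪f,f⟫_ℂ`, `P(w) = ⟪f,T w⟫_ℂ`, not identically `0` (`HW.sp`).
  `T w = (x'G(w)/ν1) n1 + (y'G(w)/ν2) n2 + (P(w)/φ) f` (`expand3`). Insert in `e0`:
  (‡) `P(z) P̄(w)/φ = (ν1-δ) x x̄' [G(z)Ḡ(w)/(δν1) + s λ(z)λ̄(w)] + (ν2-δ) y ȳ' [G(z)Ḡ(w)/(δν2) + s λ(z)λ̄(w)]`.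
  - `ν1 < δ`: `z = w = (1,0)`: `G(1,0) = 0`, `λ(1,0) = 0`, `P(1,0) = 0`; so `G = y G1`, `λ = b y`, `P = y P1`;
    `z = w = (1,y)`, divide by `|y|²`, let `y → 0`: `|P1(1,0)|²/φ = (ν1-δ)(|G1(1,0)|²/(δν1) + |b|²) < 0`,
    contradiction. `ν2 < δ`: symmetric.
  - otherwise, not both `= 0` as `P ≢ 0`. For two points `z1, z2` take the combination of (‡) with
    `c1 = P(z2)`, `c2 = -P(z1)` (`∑_{ij} c_i c̄_j (‡)(z_i,z_j)`): LHS `= |c1 P(z1) + c2 P(z2)|² = 0`, RHS is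
    a sum of nonnegative terms `(ν1-δ)[|∑ c_i x_i G(z_i)|²/(δν1) + |∑ c_i x_i² λ(z_i)|² +
    |∑ c_i x_i y_i λ(z_i)|²] + ...`. Say `ν1 > δ`: `P(z2) x1² λ(z1) = P(z1) x2² λ(z2)` and
    `P(z2) x1 y1 λ(z1) = P(z1) x2 y2 λ(z2)`, hence `P(z1) x2 λ(z2) (x2 y1 - y2 x1) = 0` for all `z1, z2`; take
    `z2` with `P(z2) x2 λ(z2) ≠ 0` and `z1` with `P(z1)(x2 y1 - y2 x1) ≠ 0` (nonzero polynomials):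
    contradiction. `ν2 > δ`: the same with `y² λ`, `x y λ`. -/
def CaseThree : Prop := ∀ (l : Fin 2 → H4) (r : Fin 3 → H4) (t : Fin 4 → H4) (W : Submodule ℂ H4),
  HS l r t → HW W t → Module.finrank ℂ W = 3 → (∃ x y, Lf l x y ≠ 0) → False

/-- (P2a) the normal form for `finrank W = 2`.
Proof. `σ_a ∈ W` := orthogonal projection of `r_a` to `W`, so `⟪T w, Rf σ z⟫_ℂ = ⟪T w, R z⟫_ℂ`. For
`z = (1,y)`, `z^⊥ = (-ȳ,1)`, `s(z,z^⊥) = 0`: `⟪T z^⊥, T z⟫_ℂ = 0`, `⟪T z^⊥, Rf σ z⟫_ℂ = 0`, `⟪T z, Rf σ z^⊥⟫_ℂ = 0`.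
If `T z ≠ 0 ≠ T z^⊥` they are an orthogonal basis of `W` (`expand2`), so `⟪Rf σ z^⊥, Rf σ z⟫_ℂ = 0`. This is a
polynomial in `y` (`⟪ȳ²σ0 - ȳσ1 + σ2, σ0 + yσ1 + y²σ2⟫_ℂ`), and `T z, T z^⊥ ≠ 0` for all but
finitely many `y`, so its coefficients vanish: `⟪σ2,σ0⟫_ℂ = 0`, `⟪σ2,σ1⟫_ℂ = ⟪σ1,σ0⟫_ℂ`,
`⟪σ1,σ1⟫_ℂ = ⟪σ0,σ0⟫_ℂ + ⟪σ2,σ2⟫_ℂ`. Then `Rf σ` has a zero `(p,q) ≠ 0`: `σ0 = 0`: `(1,0)`; `σ2 = 0`: `(0,1)`;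
otherwise (`expand2`) `σ1 = a σ0 + b σ2`, `a = ⟪σ0,σ1⟫_ℂ/|σ0|² = ⟪σ1,σ2⟫_ℂ/|σ0|²`, `b = ⟪σ2,σ1⟫_ℂ/|σ2|²`,
`b̄|σ2|² = a|σ0|²` and the norm relation `|a|²|σ0|²+|b|²|σ2|² = |σ0|²+|σ2|²` give `ab = 1` (multiply out:
`a b = |b|²|σ2|²/|σ0|² = |a|²|σ0|²/|σ2|²`; `u = |σ2|²/|σ0|²`, `ab = |b|²u = |a|²/u`, `|a|²+|b|²u = 1+u`,
i.e. `ab(u+1) = 1+u`), and `Rf σ (a,-1) = a²σ0 - aσ1 + σ2 = (1-ab)σ2 = 0`.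
Rotate (`unit_of_ne`, `Rf_smul`, `HS.rot`, `HW.rot`) so that `σ0 = 0`; the relations hold again for the rotated
data (apply the lemma again after the rotation). -/
def CaseTwoRed : Prop := ∀ (l : Fin 2 → H4) (r : Fin 3 → H4) (t : Fin 4 → H4) (W : Submodule ℂ H4),
  HS l r t → HW W t → Module.finrank ℂ W = 2 → (∃ x y, Lf l x y ≠ 0) →
  ∃ (l' : Fin 2 → H4) (r' : Fin 3 → H4) (t' : Fin 4 → H4) (σ1 σ2 : H4), HS l' r' t' ∧ HW W t' ∧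
    (∃ x y, Lf l' x y ≠ 0) ∧ σ1 ∈ W ∧ σ2 ∈ W ∧ (∀ u ∈ W, ⟪u, r' 0⟫_ℂ = 0) ∧
    (∀ u ∈ W, ⟪u, r' 1⟫_ℂ = ⟪u, σ1⟫_ℂ) ∧ (∀ u ∈ W, ⟪u, r' 2⟫_ℂ = ⟪u, σ2⟫_ℂ) ∧
    ⟪σ1, σ1⟫_ℂ = ⟪σ2, σ2⟫_ℂ ∧ ⟪σ2, σ1⟫_ℂ = 0

/-- (P2b) the normal form for `finrank W = 2` is contradictory (helper66 does this one). -/
def CaseTwoNF : Prop := ∀ (l : Fin 2 → H4) (r : Fin 3 → H4) (t : Fin 4 → H4) (W : Submodule ℂ H4)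
    (σ1 σ2 : H4), HS l r t → HW W t → Module.finrank ℂ W = 2 →
    (∃ x y, Lf l x y ≠ 0) → σ1 ∈ W → σ2 ∈ W → (∀ u ∈ W, ⟪u, r 0⟫_ℂ = 0) →
    (∀ u ∈ W, ⟪u, r 1⟫_ℂ = ⟪u, σ1⟫_ℂ) → (∀ u ∈ W, ⟪u, r 2⟫_ℂ = ⟪u, σ2⟫_ℂ) →
    ⟪σ1, σ1⟫_ℂ = ⟪σ2, σ2⟫_ℂ → ⟪σ2, σ1⟫_ℂ = 0 → False

end Pool.Agent.W2helper66.SOS.Base
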