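import Pool.Agent.W2helper66.SOS.BaseStm

/-!
# SOS, last case, piece K7 : the normal form with `finrank W = 2` is contradictory
-/

set_option autoImplicit false

open scoped ComplexConjugate InnerProductSpace

namespace Pool.Agent.W2helper66.SOS.Base

variable {H : Type*} [NormedAddCommGroup H] [InnerProductSpace ℂ H] [FiniteDimensional ℂ H]

theorem HW.perp {W : Submodule ℂ H} {t : Fin 4 → H} (h : HW W t) {v : H}
    (hv : ∀ x y, ⟪Tf t x y, v⟫_ℂ = 0) : ∀ u ∈ W, ⟪u, v⟫_ℂ = 0 := by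
  obtain ⟨p, hp, q, hq, rfl⟩ := W.exists_add_mem_mem_orthogonal v
  have hp0 : p = 0 := h.sp p hp (fun x y => by
    have := hv x y
    rwa [inner_add_right, (W.mem_orthogonal q).1 hq _ (h.mem x y), add_zero] at this)
  intro u hu
  rw [hp0, zero_add, (W.mem_orthogonal q).1 hq u hu]

theorem HS.l_perp {l : Fin 2 → H} {r : Fin 3 → H} {t : Fin 4 → H} {W : Submodule ℂ H}
    (h : HS l r t) (hW : HW W t) : ∀ u ∈ W, ∀ x y, ⟪u, Lf l x y⟫_ℂ = 0 :=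
  fun u hu x y => hW.perp (fun x' y' => h.e2 x y x' y') u hu

theorem parseval {W : Submodule ℂ H} {k : ℕ} (v : Fin k → H)
    (hv : ∀ i, v i ∈ W) (h0 : ∀ i, v i ≠ 0) (ho : ∀ i j, i ≠ j → ⟪v i, v j⟫_ℂ = 0)
    (hk : Module.finrank ℂ W = k) {u : H} (hu : u ∈ W) (u' : H) :
    ⟪u', u⟫_ℂ = ∑ i, ⟪u', v i⟫_ℂ * ⟪v i, u⟫_ℂ / ⟪v i, v i⟫_ℂ := by
  conv_lhs => rw [expand v hv h0 ho hk hu]
  rw [inner_sum]
  refine Finset.sum_congr rfl fun i _ => ?_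
  rw [inner_smul_right]; ring

omit [FiniteDimensional ℂ H] in
theorem innC (v : H) : ⟪v, v⟫_ℂ = ((‖v‖ ^ 2 : ℝ) : ℂ) := by
  rw [inner_self_eq_norm_sq_to_K]; push_cast; rfl

omit [FiniteDimensional ℂ H] in
theorem inner_swap {a b : H} (h : ⟪a, b⟫_ℂ = 0) : ⟪b, a⟫_ℂ = 0 := by
  rw [← inner_conj_symm, h, map_zero]

theorem parseval4 (hH : Module.finrank ℂ H = 4) {a b c d : H} (ha : a ≠ 0) (hb : b ≠ 0)
    (hc : c ≠ 0) (hd : d ≠ 0) (hab : ⟪a, b⟫_ℂ = 0) (hac : ⟪a, c⟫_ℂ = 0) (had : ⟪a, d⟫_ℂ = 0)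
    (hbc : ⟪b, c⟫_ℂ = 0) (hbd : ⟪b, d⟫_ℂ = 0) (hcd : ⟪c, d⟫_ℂ = 0) (u' u : H) :
    ⟪u', u⟫_ℂ = ⟪u', a⟫_ℂ * ⟪a, u⟫_ℂ / ⟪a, a⟫_ℂ + ⟪u', b⟫_ℂ * ⟪b, u⟫_ℂ / ⟪b, b⟫_ℂ +
      ⟪u', c⟫_ℂ * ⟪c, u⟫_ℂ / ⟪c, c⟫_ℂ + ⟪u', d⟫_ℂ * ⟪d, u⟫_ℂ / ⟪d, d⟫_ℂ := by
  have hba := inner_swap hab
  have hca := inner_swap hac
  have hda := inner_swap had
  have hcb := inner_swap hbc
  have hdb := inner_swap hbd
  have hdc := inner_swap hcd
  have := parseval (W := ⊤) ![a, b, c, d] (fun _ => Submodule.mem_top)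
    (by intro i; fin_cases i <;> simpa)
    (by intro i j hij; fin_cases i <;> fin_cases j <;> simp_all)
    (by rw [finrank_top, hH]) (Submodule.mem_top (x := u)) u'
  simpa [Fin.sum_univ_four] using this

theorem parseval2 {W : Submodule ℂ H} (hW : Module.finrank ℂ W = 2) {a b : H}
    (ha' : a ∈ W) (hb' : b ∈ W) (ha : a ≠ 0) (hb : b ≠ 0)
    (hab : ⟪a, b⟫_ℂ = 0) (u' : H) {u : H} (hu : u ∈ W) :
    ⟪u', u⟫_ℂ = ⟪u', a⟫_ℂ * ⟪a, u⟫_ℂ / ⟪a, a⟫_ℂ + ⟪u', b⟫_ℂ * ⟪b, u⟫_ℂ / ⟪b, b⟫_ℂ := by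
  have hba := inner_swap hab
  have := parseval (W := W) ![a, b] (by intro i; fin_cases i <;> simpa)
    (by intro i; fin_cases i <;> simpa)
    (by intro i j hij; fin_cases i <;> fin_cases j <;> simp_all)
    hW hu u'
  simpa [Fin.sum_univ_two] using this

theorem finrank_orth {W : Submodule ℂ H} {k m : ℕ} (hH : Module.finrank ℂ H = k + m)
    (hW : Module.finrank ℂ W = k) : Module.finrank ℂ Wᗮ = m := by
  have := W.finrank_add_finrank_orthogonal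
  omega

theorem ss_diag (x y : ℂ) : ss x y x y = ((‖x‖ ^ 2 + ‖y‖ ^ 2 : ℝ) : ℂ) := by
  unfold ss
  rw [Complex.mul_conj, Complex.mul_conj, Complex.normSq_eq_norm_sq, Complex.normSq_eq_norm_sq]
  push_cast; rfl

omit [FiniteDimensional ℂ H] in
theorem HS.diag {l : Fin 2 → H} {r : Fin 3 → H} {t : Fin 4 → H} (h : HS l r t) (x y : ℂ) :
    ‖Tf t x y‖ ^ 2 = (‖x‖ ^ 2 + ‖y‖ ^ 2) * ‖Rf r x y‖ ^ 2 -
      (‖x‖ ^ 2 + ‖y‖ ^ 2) ^ 2 * ‖Lf l x y‖ ^ 2 := by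
  have := h.e0 x y x y
  rw [ss_diag, innC, innC, innC] at this
  exact_mod_cast this

/-- the case `R ⊥ L`, everything in `Wᗮ`, `l 0 = 0` -/
theorem perp_case (hH : Module.finrank ℂ H = 4) {l : Fin 2 → H} {r : Fin 3 → H} {t : Fin 4 → H}
    {W : Submodule ℂ H} (h : HS l r t) (hW : HW W t) (hd : Module.finrank ℂ W = 2)
    (h0 : l 0 = 0) (h1 : l 1 ≠ 0) (hR : ∀ u ∈ W, ∀ x y, ⟪u, Rf r x y⟫_ℂ = 0)
    (hLR : ∀ x y, ⟪l 1, Rf r x y⟫_ℂ = 0) : False := by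
  have hM : Module.finrank ℂ Wᗮ = 2 := finrank_orth (m := 2) hH hd
  obtain ⟨f, hf, hf0, hf1⟩ := exists_orth (W := Wᗮ) ![l 1] (by rw [hM]; norm_num)
  have hf1 : ⟪l 1, f⟫_ℂ = 0 := by simpa using hf1 0
  have hl1 : l 1 ∈ Wᗮ := by
    rw [Submodule.mem_orthogonal]
    intro u hu
    have := h.l_perp hW u hu 0 1
    rwa [Lf_01] at this
  have hexp : ∀ x y, Rf r x y = (⟪f, Rf r x y⟫_ℂ / ⟪f, f⟫_ℂ) • f := by
    intro x y
    have hmem : Rf r x y ∈ Wᗮ := by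
      rw [Submodule.mem_orthogonal]; exact fun u hu => hR u hu x y
    have := expand2 hl1 hf h1 hf0 hf1 hM hmem
    rw [hLR, zero_div, zero_smul, zero_add] at this
    exact this
  have hfpos : 0 < ‖f‖ ^ 2 := by positivity
  have hlpos : 0 < ‖l 1‖ ^ 2 := by positivity
  obtain ⟨x, hx⟩ := quad_small ⟪f, r 0⟫_ℂ ⟪f, r 1⟫_ℂ ⟪f, r 2⟫_ℂ (ε := ‖f‖ ^ 2 * ‖l 1‖ ^ 2)
    (by positivity)
  have hd := h.diag x 1
  have hL : Lf l x 1 = l 1 := by simp [Lf, h0]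
  have hRn : ‖Rf r x 1‖ ^ 2 = ‖⟪f, Rf r x 1⟫_ℂ‖ ^ 2 / ‖f‖ ^ 2 := by
    conv_lhs => rw [hexp]
    rw [norm_smul, norm_div, innC, Complex.norm_real, Real.norm_of_nonneg (by positivity)]
    have : ‖f‖ ≠ 0 := norm_ne_zero_iff.2 hf0
    field_simp
  have hin : ⟪f, Rf r x 1⟫_ℂ = ⟪f, r 0⟫_ℂ * x ^ 2 + ⟪f, r 1⟫_ℂ * x + ⟪f, r 2⟫_ℂ := by
    unfold Rf
    rw [inner_add_right, inner_add_right, inner_smul_right, inner_smul_right, inner_smul_right]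
    ring
  rw [hRn, hL, hin, norm_one] at hd
  have hT : 0 ≤ ‖Tf t x 1‖ ^ 2 := by positivity
  rw [hd] at hT
  have hz : 0 < ‖x‖ ^ 2 + 1 ^ 2 := by positivity
  have h2 : 0 ≤ ‖⟪f, r 0⟫_ℂ * x ^ 2 + ⟪f, r 1⟫_ℂ * x + ⟪f, r 2⟫_ℂ‖ ^ 2 / ‖f‖ ^ 2 -
      (‖x‖ ^ 2 + 1 ^ 2) * ‖l 1‖ ^ 2 := by
    have : 0 ≤ (‖x‖ ^ 2 + 1 ^ 2) * (‖⟪f, r 0⟫_ℂ * x ^ 2 + ⟪f, r 1⟫_ℂ * x + ⟪f, r 2⟫_ℂ‖ ^ 2 /
        ‖f‖ ^ 2 - (‖x‖ ^ 2 + 1 ^ 2) * ‖l 1‖ ^ 2) := by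
      rw [mul_sub]; calc _ ≤ _ := hT
                         _ = _ := by ring
    exact nonneg_of_mul_nonneg_right this hz
  rw [sub_nonneg, le_div_iff₀ hfpos] at h2
  rw [one_pow] at h2
  have : (‖x‖ ^ 2 + 1) * ‖l 1‖ ^ 2 * ‖f‖ ^ 2 = ‖f‖ ^ 2 * ‖l 1‖ ^ 2 * (‖x‖ ^ 2 + 1) := by ring
  linarith

theorem caseTwo_perp (hH : Module.finrank ℂ H = 4) {l : Fin 2 → H} {r : Fin 3 → H}
    {t : Fin 4 → H} {W : Submodule ℂ H} (h : HS l r t) (hW : HW W t)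
    (hd : Module.finrank ℂ W = 2) (hne : ∃ x y, Lf l x y ≠ 0)
    (hR : ∀ u ∈ W, ∀ x y, ⟪u, Rf r x y⟫_ℂ = 0)
    (hLR : ∀ x y x' y', ⟪Lf l x' y', Rf r x y⟫_ℂ = 0) : False := by
  have hM : Module.finrank ℂ Wᗮ = 2 := finrank_orth (m := 2) hH hd
  have hlM : ∀ x y, Lf l x y ∈ Wᗮ := by
    intro x y
    rw [Submodule.mem_orthogonal]
    exact fun u hu => h.l_perp hW u hu x y
  have key : ∃ p q : ℂ, (p ≠ 0 ∨ q ≠ 0) ∧ Lf l p q = 0 := by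
    by_contra hno
    push Not at hno
    have h0 : l 0 ≠ 0 := by
      have := hno 1 0 (Or.inl one_ne_zero)
      rwa [Lf_10] at this
    have hl0 : l 0 ∈ Wᗮ := by have := hlM 1 0; rwa [Lf_10] at this
    have hl1 : l 1 ∈ Wᗮ := by have := hlM 0 1; rwa [Lf_01] at this
    obtain ⟨f, hf, hf0, hf1⟩ := exists_orth (W := Wᗮ) ![l 0] (by rw [hM]; norm_num)
    have hf1 : ⟪l 0, f⟫_ℂ = 0 := by simpa using hf1 0
    have he := expand2 hl0 hf h0 hf0 hf1 hM hl1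
    have hb : ⟪f, l 1⟫_ℂ ≠ 0 := by
      intro hb
      rw [hb, zero_div, zero_smul, add_zero] at he
      apply hno (⟪l 0, l 1⟫_ℂ / ⟪l 0, l 0⟫_ℂ) (-1) (Or.inr (by norm_num))
      unfold Lf
      rw [← he, neg_one_smul, add_neg_cancel]
    have hR0 : ∀ x y, Rf r x y = 0 := by
      intro x y
      have hmem : Rf r x y ∈ Wᗮ := by
        rw [Submodule.mem_orthogonal]; exact fun u hu => hR u hu x y
      have h1 := expand2 hl0 hf h0 hf0 hf1 hM hmem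
      have h2 := hLR x y 1 0
      rw [Lf_10] at h2
      rw [h2, zero_div, zero_smul, zero_add] at h1
      have h3 := hLR x y 0 1
      rw [Lf_01, h1, inner_smul_right] at h3
      rcases mul_eq_zero.1 h3 with h4 | h4
      · rw [h1, h4, zero_smul]
      · exact absurd (inner_swap h4) hb
    obtain ⟨x, y, hxy⟩ := hne
    have hdg := h.diag x y
    rw [hR0, norm_zero] at hdg
    have h1 : 0 < ‖Lf l x y‖ ^ 2 := by positivity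
    have h2 : 0 < ‖x‖ ^ 2 + ‖y‖ ^ 2 := by
      by_contra h3
      have hx : ‖x‖ ^ 2 = 0 := by nlinarith [sq_nonneg ‖x‖, sq_nonneg ‖y‖]
      have hy : ‖y‖ ^ 2 = 0 := by nlinarith [sq_nonneg ‖x‖, sq_nonneg ‖y‖]
      have hx : x = 0 := by simpa using hx
      have hy : y = 0 := by simpa using hy
      apply hxy
      simp [Lf, hx, hy]
    have h3 : 0 ≤ ‖Tf t x y‖ ^ 2 := by positivity
    have h4 : 0 < (‖x‖ ^ 2 + ‖y‖ ^ 2) ^ 2 * ‖Lf l x y‖ ^ 2 := by positivity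
    linarith
  obtain ⟨p, q, hpq, hL⟩ := key
  obtain ⟨c, hc, hcn⟩ := unit_of_ne hpq
  have h' := h.rot hcn
  have hW' := hW.rot hcn
  have hL0 : rl l (c * p) (c * q) 0 = 0 := by
    change Lf l (c * p) (c * q) = 0
    rw [Lf_smul, hL, smul_zero]
  apply perp_case hH h' hW' hd hL0
  · intro h1
    obtain ⟨x, y, hxy⟩ := hne
    obtain ⟨x', y', hx, hy⟩ := rot_surj hcn x y
    apply hxy
    rw [hx, hy, ← Lf_rl]
    unfold Lf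
    rw [hL0, h1, smul_zero, smul_zero, add_zero]
  · intro u hu x y
    rw [Rf_rr]; exact hR u hu _ _
  · intro x y
    rw [Rf_rr]
    exact hLR _ _ _ _

theorem parseval2_norm {W : Submodule ℂ H} (hW : Module.finrank ℂ W = 2) {a b : H}
    (ha' : a ∈ W) (hb' : b ∈ W) (ha : a ≠ 0) (hb : b ≠ 0)
    (hab : ⟪a, b⟫_ℂ = 0) {u : H} (hu : u ∈ W) :
    ‖u‖ ^ 2 = ‖⟪a, u⟫_ℂ‖ ^ 2 / ‖a‖ ^ 2 + ‖⟪b, u⟫_ℂ‖ ^ 2 / ‖b‖ ^ 2 := by
  have h := parseval2 hW ha' hb' ha hb hab u hu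
  rw [← inner_conj_symm u a, ← inner_conj_symm u b, Complex.conj_mul', Complex.conj_mul', innC,
    innC, innC] at h
  exact_mod_cast h

theorem parseval4_norm (hH : Module.finrank ℂ H = 4) {a b c d : H} (ha : a ≠ 0) (hb : b ≠ 0)
    (hc : c ≠ 0) (hd : d ≠ 0) (hab : ⟪a, b⟫_ℂ = 0) (hac : ⟪a, c⟫_ℂ = 0) (had : ⟪a, d⟫_ℂ = 0)
    (hbc : ⟪b, c⟫_ℂ = 0) (hbd : ⟪b, d⟫_ℂ = 0) (hcd : ⟪c, d⟫_ℂ = 0) (u : H) :
    ‖u‖ ^ 2 = ‖⟪a, u⟫_ℂ‖ ^ 2 / ‖a‖ ^ 2 + ‖⟪b, u⟫_ℂ‖ ^ 2 / ‖b‖ ^ 2 +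
      ‖⟪c, u⟫_ℂ‖ ^ 2 / ‖c‖ ^ 2 + ‖⟪d, u⟫_ℂ‖ ^ 2 / ‖d‖ ^ 2 := by
  have h := parseval4 hH ha hb hc hd hab hac had hbc hbd hcd u u
  rw [← inner_conj_symm u a, ← inner_conj_symm u b, ← inner_conj_symm u c, ← inner_conj_symm u d,
    Complex.conj_mul', Complex.conj_mul', Complex.conj_mul', Complex.conj_mul', innC, innC, innC,
    innC, innC] at h
  exact_mod_cast h

/-- common facts in the normal form -/
structure N2 (l : Fin 2 → H) (r : Fin 3 → H) (t : Fin 4 → H) (W : Submodule ℂ H) (σ1 σ2 : H) :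
    Prop where
  hs : HS l r t
  hw : HW W t
  dim : Module.finrank ℂ W = 2
  m1 : σ1 ∈ W
  m2 : σ2 ∈ W
  r0 : ∀ u ∈ W, ⟪u, r 0⟫_ℂ = 0
  r1 : ∀ u ∈ W, ⟪u, r 1⟫_ℂ = ⟪u, σ1⟫_ℂ
  r2 : ∀ u ∈ W, ⟪u, r 2⟫_ℂ = ⟪u, σ2⟫_ℂ
  n : ⟪σ1, σ1⟫_ℂ = ⟪σ2, σ2⟫_ℂ
  o : ⟪σ2, σ1⟫_ℂ = 0

section N2
variable {l : Fin 2 → H} {r : Fin 3 → H} {t : Fin 4 → H} {W : Submodule ℂ H} {σ1 σ2 : H}

omit [FiniteDimensional ℂ H] in
theorem inner_Rf (u : H) (x y : ℂ) :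
    ⟪u, Rf r x y⟫_ℂ = x ^ 2 * ⟪u, r 0⟫_ℂ + x * y * ⟪u, r 1⟫_ℂ + y ^ 2 * ⟪u, r 2⟫_ℂ := by
  unfold Rf
  rw [inner_add_right, inner_add_right, inner_smul_right, inner_smul_right, inner_smul_right]

omit [FiniteDimensional ℂ H] in
theorem inner_Lf (u : H) (x y : ℂ) :
    ⟪u, Lf l x y⟫_ℂ = x * ⟪u, l 0⟫_ℂ + y * ⟪u, l 1⟫_ℂ := by
  unfold Lf
  rw [inner_add_right, inner_smul_right, inner_smul_right]

theorem N2.l0W (h : N2 l r t W σ1 σ2) : ∀ u ∈ W, ⟪u, l 0⟫_ℂ = 0 := fun u hu => by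
  have := h.hs.l_perp h.hw u hu 1 0
  rwa [Lf_10] at this

theorem N2.l1W (h : N2 l r t W σ1 σ2) : ∀ u ∈ W, ⟪u, l 1⟫_ℂ = 0 := fun u hu => by
  have := h.hs.l_perp h.hw u hu 0 1
  rwa [Lf_01] at this

omit [FiniteDimensional ℂ H] in
theorem N2.l0R (h : N2 l r t W σ1 σ2) (x y : ℂ) : ⟪l 0, Rf r x y⟫_ℂ = 0 := by
  have hR : ∀ x' y', conj x' * ⟪Rf r x' y', l 0⟫_ℂ = 0 := by
    intro x' y'
    have := h.hs.e1 1 0 x' y'
    rw [Rf_10, Lf_10, h.r0 _ (h.hw.mem x' y')] at this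
    rw [this]
    unfold ss
    ring
  have a0 : ⟪l 0, Rf r 1 0⟫_ℂ = 0 := by
    have := hR 1 0
    rw [map_one, one_mul] at this
    exact inner_swap this
  have a1 : ⟪l 0, Rf r 1 1⟫_ℂ = 0 := by
    have := hR 1 1
    rw [map_one, one_mul] at this
    exact inner_swap this
  have a2 : ⟪l 0, Rf r 1 (-1)⟫_ℂ = 0 := by
    have := hR 1 (-1)
    rw [map_one, one_mul] at this
    exact inner_swap this
  rw [inner_Rf] at a0 a1 a2 ⊢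
  have b0 : ⟪l 0, r 0⟫_ℂ = 0 := by linear_combination a0
  have b2 : ⟪l 0, r 2⟫_ℂ = 0 := by linear_combination (a1 + a2) / 2 - a0
  have b1 : ⟪l 0, r 1⟫_ℂ = 0 := by linear_combination (a1 - a2) / 2
  rw [b0, b1, b2]; ring

omit [FiniteDimensional ℂ H] in
theorem N2.T2 (h : N2 l r t W σ1 σ2) (x y : ℂ) :
    ⟪Tf t x y, σ2⟫_ℂ = conj y * ⟪Rf r x y, l 1⟫_ℂ := by
  have := h.hs.e1 0 1 x y
  rw [Rf_01, Lf_01, h.r2 _ (h.hw.mem x y)] at this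
  rw [this]; unfold ss; ring

omit [FiniteDimensional ℂ H] in
theorem N2.T1 (h : N2 l r t W σ1 σ2) (x y : ℂ) :
    ⟪Tf t x y, σ1⟫_ℂ = conj x * ⟪Rf r x y, l 1⟫_ℂ := by
  have := h.hs.e1 1 1 x y
  have h2 := h.T2 x y
  have h3 := inner_swap (h.l0R x y)
  rw [Rf_11, Lf_11, inner_add_right, inner_add_right, h.r0 _ (h.hw.mem x y),
    h.r1 _ (h.hw.mem x y), h.r2 _ (h.hw.mem x y), inner_add_right, h3, h2] at this
  unfold ss at this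
  linear_combination this

omit [FiniteDimensional ℂ H] in
theorem N2.σ1R (h : N2 l r t W σ1 σ2) (x y : ℂ) :
    ⟪σ1, Rf r x y⟫_ℂ = x * y * ⟪σ1, σ1⟫_ℂ := by
  rw [inner_Rf, h.r0 _ h.m1, h.r1 _ h.m1, h.r2 _ h.m1, inner_swap h.o]; ring

omit [FiniteDimensional ℂ H] in
theorem N2.σ2R (h : N2 l r t W σ1 σ2) (x y : ℂ) :
    ⟪σ2, Rf r x y⟫_ℂ = y ^ 2 * ⟪σ2, σ2⟫_ℂ := by
  rw [inner_Rf, h.r0 _ h.m2, h.r1 _ h.m2, h.r2 _ h.m2, h.o]; ring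

/-- the case `l 0 = 0` -/
theorem N2.caseA (h : N2 l r t W σ1 σ2) (hH : Module.finrank ℂ H = 4) (h0 : l 0 = 0)
    (h1 : l 1 ≠ 0) (hσ1 : σ1 ≠ 0) (hσ2 : σ2 ≠ 0) : False := by
  have hM : Module.finrank ℂ Wᗮ = 2 := finrank_orth (m := 2) hH h.dim
  obtain ⟨f, hf, hf0, hf1⟩ := exists_orth (W := Wᗮ) ![l 1] (by rw [hM]; norm_num)
  have hf1 : ⟪l 1, f⟫_ℂ = 0 := by simpa using hf1 0
  have hfW : ∀ u ∈ W, ⟪u, f⟫_ℂ = 0 := (Submodule.mem_orthogonal W f).1 hf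
  set δ : ℝ := ‖l 1‖ ^ 2 with hδ
  set ν : ℝ := ‖σ1‖ ^ 2 with hν
  set φ : ℝ := ‖f‖ ^ 2 with hφ
  have hδ0 : 0 < δ := by positivity
  have hν0 : 0 < ν := by positivity
  have hφ0 : 0 < φ := by positivity
  have hν2 : ‖σ2‖ ^ 2 = ν := by
    have := h.n
    rw [innC, innC] at this
    exact_mod_cast this.symm
  have hid : ∀ x y : ℂ, (x ≠ 0 ∨ y ≠ 0) → ‖⟪f, Rf r x y⟫_ℂ‖ ^ 2 / φ =
      (δ - ν) * (‖⟪l 1, Rf r x y⟫_ℂ‖ ^ 2 / (ν * δ) + (‖x‖ ^ 2 + ‖y‖ ^ 2) * ‖y‖ ^ 2) := by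
    intro x y hxy
    have hd := h.hs.diag x y
    have hT := parseval2_norm h.dim h.m1 h.m2 hσ1 hσ2 (inner_swap h.o) (h.hw.mem x y)
    have hR := parseval4_norm hH h1 hf0 hσ1 hσ2 hf1 (inner_swap (h.l1W _ h.m1))
      (inner_swap (h.l1W _ h.m2)) (inner_swap (hfW _ h.m1)) (inner_swap (hfW _ h.m2))
      (inner_swap h.o) (Rf r x y)
    rw [norm_inner_symm σ1, norm_inner_symm σ2, h.T1, h.T2, norm_mul, norm_mul, RCLike.norm_conj,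
      RCLike.norm_conj, norm_inner_symm _ (l 1), hν2, ← hν] at hT
    rw [h.σ1R, h.σ2R, norm_mul, norm_mul, norm_mul, innC, innC, Complex.norm_real,
      Complex.norm_real, hν2, ← hν, Real.norm_of_nonneg hν0.le, ← hδ, ← hφ, norm_pow] at hR
    have hL : ‖Lf l x y‖ ^ 2 = ‖y‖ ^ 2 * δ := by
      unfold Lf
      rw [h0, smul_zero, zero_add, norm_smul]; ring
    rw [hT, hR, hL] at hd
    have hn : 0 < ‖x‖ ^ 2 + ‖y‖ ^ 2 := by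
      rcases hxy with hx | hx
      · have : 0 < ‖x‖ := norm_pos_iff.2 hx
        positivity
      · have : 0 < ‖y‖ := norm_pos_iff.2 hx
        positivity
    generalize ‖⟪f, Rf r x y⟫_ℂ‖ = A at *
    generalize ‖⟪l 1, Rf r x y⟫_ℂ‖ = B at *
    field_simp at hd ⊢
    linear_combination (-1) * hd
  rcases lt_trichotomy δ ν with hlt | heq | hgt
  · have := hid 0 1 (Or.inr one_ne_zero)
    have h2 : 0 ≤ ‖⟪f, Rf r 0 1⟫_ℂ‖ ^ 2 / φ := by positivity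
    have h3 : 0 < ‖⟪l 1, Rf r 0 1⟫_ℂ‖ ^ 2 / (ν * δ) + (‖(0 : ℂ)‖ ^ 2 + ‖(1 : ℂ)‖ ^ 2) *
        ‖(1 : ℂ)‖ ^ 2 := by
      have : 0 ≤ ‖⟪l 1, Rf r 0 1⟫_ℂ‖ ^ 2 / (ν * δ) := by positivity
      rw [norm_zero, norm_one]; linarith
    nlinarith
  · have hz : ∀ x y : ℂ, ⟪f, Rf r x y⟫_ℂ = 0 := by
      intro x y
      by_cases hxy : x ≠ 0 ∨ y ≠ 0
      · have := hid x y hxy
        rw [heq, sub_self, zero_mul, div_eq_zero_iff] at this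
        rcases this with h5 | h5
        · simpa using h5
        · exact absurd h5 hφ0.ne'
      · push Not at hxy
        rw [hxy.1, hxy.2, inner_Rf]; ring
    apply hf0
    apply h.hs.ind f
    · intro x y
      rw [inner_Lf, h0, inner_zero_right, inner_swap hf1]; ring
    · exact hz
    · intro x y
      exact inner_swap (hfW _ (h.hw.mem x y))
  · obtain ⟨x, hx⟩ := quad_small ⟪f, r 0⟫_ℂ ⟪f, r 1⟫_ℂ ⟪f, r 2⟫_ℂ (ε := φ * (δ - ν))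
      (mul_pos hφ0 (sub_pos.2 hgt))
    have := hid x 1 (Or.inr one_ne_zero)
    rw [show ⟪f, Rf r x 1⟫_ℂ = ⟪f, r 0⟫_ℂ * x ^ 2 + ⟪f, r 1⟫_ℂ * x + ⟪f, r 2⟫_ℂ by
      rw [inner_Rf]; ring, div_eq_iff hφ0.ne', norm_one] at this
    rw [this] at hx
    have h6 : 0 ≤ ‖⟪l 1, Rf r x 1⟫_ℂ‖ ^ 2 / (ν * δ) := by positivity
    have h7 : 0 ≤ (δ - ν) * φ * (‖⟪l 1, Rf r x 1⟫_ℂ‖ ^ 2 / (ν * δ)) :=
      mul_nonneg (mul_nonneg (sub_pos.2 hgt).le hφ0.le) h6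
    nlinarith

omit [FiniteDimensional ℂ H] in
theorem conj_innC (v : H) : conj ⟪v, v⟫_ℂ = ⟪v, v⟫_ℂ := inner_conj_symm v v

/-- the case `l 0 ≠ 0` -/
theorem N2.caseB (h : N2 l r t W σ1 σ2) (hH : Module.finrank ℂ H = 4) (h0 : l 0 ≠ 0)
    (hσ1 : σ1 ≠ 0) (hσ2 : σ2 ≠ 0) : False := by
  have hM : Module.finrank ℂ Wᗮ = 2 := finrank_orth (m := 2) hH h.dim
  obtain ⟨f, hf, hf0, hf1⟩ := exists_orth (W := Wᗮ) ![l 0] (by rw [hM]; norm_num)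
  have hf1 : ⟪l 0, f⟫_ℂ = 0 := by simpa using hf1 0
  have hfW : ∀ u ∈ W, ⟪u, f⟫_ℂ = 0 := (Submodule.mem_orthogonal W f).1 hf
  have hφ0 : ⟪f, f⟫_ℂ ≠ 0 := inner_self_ne_zero.2 hf0
  have hν0 : ⟪σ1, σ1⟫_ℂ ≠ 0 := inner_self_ne_zero.2 hσ1
  have hℓ0 : ⟪l 0, l 0⟫_ℂ ≠ 0 := inner_self_ne_zero.2 h0
  have hpar := parseval4 hH h0 hf0 hσ1 hσ2 hf1 (inner_swap (h.l0W _ h.m1))
      (inner_swap (h.l0W _ h.m2)) (inner_swap (hfW _ h.m1)) (inner_swap (hfW _ h.m2))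
      (inner_swap h.o)
  obtain ⟨C, hC⟩ : ∃ C : ℂ, C = ⟪f, l 1⟫_ℂ * ⟪l 1, f⟫_ℂ / (⟪f, f⟫_ℂ ^ 2 * ⟪σ1, σ1⟫_ℂ) -
    1 / ⟪f, f⟫_ℂ := ⟨_, rfl⟩
  have hE : ∀ x y x' y' : ℂ, ss x y x' y' ≠ 0 →
      C * (⟪f, Rf r x y⟫_ℂ * ⟪Rf r x' y', f⟫_ℂ) = ss x y x' y' *
        (⟪σ1, σ1⟫_ℂ * (y * conj y') - ⟪Lf l x' y', Lf l x y⟫_ℂ) := by
    intro x y x' y' hs
    have he := h.hs.e0 x y x' y'
    rw [parseval2 h.dim h.m1 h.m2 hσ1 hσ2 (inner_swap h.o) _ (h.hw.mem x y), h.T1, h.T2,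
      ← inner_conj_symm σ1 (Tf t x y), ← inner_conj_symm σ2 (Tf t x y), h.T1, h.T2, map_mul,
      map_mul, Complex.conj_conj, Complex.conj_conj, inner_conj_symm, ← h.n,
      hpar (Rf r x' y') (Rf r x y), hpar (Rf r x' y') (l 1), hpar (l 1) (Rf r x y), h.l0R,
      ← inner_conj_symm (Rf r x' y') σ1, ← inner_conj_symm (Rf r x' y') σ2, h.σ1R, h.σ2R,
      h.σ1R, h.σ2R, h.l1W _ h.m1, h.l1W _ h.m2, inner_swap (h.l1W _ h.m1),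
      inner_swap (h.l1W _ h.m2), ← h.n, inner_swap (h.l0R x' y')] at he
    simp only [map_mul, map_pow, conj_innC, zero_mul, mul_zero, zero_div, zero_add,
      add_zero] at he
    rw [hC]
    apply mul_left_cancel₀ hs
    have hνν : ⟪σ1, σ1⟫_ℂ * (⟪σ1, σ1⟫_ℂ)⁻¹ = 1 := mul_inv_cancel₀ hν0
    unfold ss at he hs ⊢
    linear_combination he + (x * conj x' + y * conj y') ^ 2 * (y * conj y') * ⟪σ1, σ1⟫_ℂ * hνν
  have e1 := hE 1 0 1 0 (by simp [ss])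
  have e2 := hE 1 0 1 1 (by simp [ss])
  have e3 := hE 1 0 1 (-1) (by simp [ss])
  have e4 := hE 0 1 0 1 (by simp [ss])
  have e5 := hE 0 1 1 1 (by simp [ss])
  have e6 := hE 1 1 1 1 (by unfold ss; norm_num)
  have k1 := inner_Rf (r := r) f
  simp only [ss, map_one, map_zero, mul_zero, mul_one, zero_mul, add_zero, zero_add, one_mul,
    map_neg, inner_Rf, ← inner_conj_symm (Rf r _ _) f, map_mul, map_add, map_pow,
    inner_Lf, ← inner_conj_symm (Lf l _ _) (l _), conj_innC] at e1 e2 e3 e4 e5 e6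
  have hx : conj ⟪l 1, l 0⟫_ℂ = 0 → conj ⟪l 0, l 1⟫_ℂ = 0 := by
    intro hh
    rw [inner_conj_symm]
    exact (map_eq_zero (starRingEnd ℂ)).1 hh
  clear hE k1 hC hpar
  generalize ⟪f, r 0⟫_ℂ = a0 at *
  generalize ⟪f, r 1⟫_ℂ = a1 at *
  generalize ⟪f, r 2⟫_ℂ = a2 at *
  have hCa : C * a0 ≠ 0 := by
    intro h5
    apply hℓ0
    linear_combination e1 - conj a0 * h5
  have h2 : a2 = 0 := by
    have h5 : C * a0 * conj a2 = 0 := by linear_combination (e2 + e3) / 2 - e1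
    rcases mul_eq_zero.1 h5 with h6 | h6
    · exact absurd h6 hCa
    · exact (map_eq_zero (starRingEnd ℂ)).1 h6
  subst h2
  rw [map_zero] at e2 e3 e4 e5 e6
  have h10 : conj ⟪l 1, l 0⟫_ℂ = 0 := by linear_combination e5 - e4
  have h01 := hx h10
  have h1 : a1 = 0 := by
    have h5 : C * a0 * conj a1 = 0 := by linear_combination (e2 - e3) / 2 - h01
    rcases mul_eq_zero.1 h5 with h6 | h6
    · exact absurd h6 hCa
    · exact (map_eq_zero (starRingEnd ℂ)).1 h6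
  subst h1
  rw [map_zero] at e6
  apply hℓ0
  linear_combination e6 - e1 - 2 * h01 - 2 * h10 - 2 * e4

end N2

theorem caseTwoNF' (hH : Module.finrank ℂ H = 4) {l : Fin 2 → H} {r : Fin 3 → H} {t : Fin 4 → H}
    {W : Submodule ℂ H} {σ1 σ2 : H} (h : N2 l r t W σ1 σ2) (hne : ∃ x y, Lf l x y ≠ 0) :
    False := by
  by_cases hG : ∀ x y, ⟪Rf r x y, l 1⟫_ℂ = 0
  · have h1 : σ1 = 0 := h.hw.sp _ h.m1 (fun x y => by rw [h.T1, hG, mul_zero])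
    have h2 : σ2 = 0 := h.hw.sp _ h.m2 (fun x y => by rw [h.T2, hG, mul_zero])
    apply caseTwo_perp hH h.hs h.hw h.dim hne
    · intro u hu x y
      rw [inner_Rf, h.r0 u hu, h.r1 u hu, h.r2 u hu, h1, h2, inner_zero_right]; ring
    · intro x y x' y'
      rw [← inner_conj_symm, inner_Lf, hG, inner_swap (h.l0R x y)]
      simp
  · push Not at hG
    obtain ⟨x, y, hxy⟩ := hG
    have hn := h.n
    have h1 : σ1 ≠ 0 := by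
      intro h1
      have h2 : σ2 = 0 := by
        rw [h1, inner_zero_right] at hn
        exact inner_self_eq_zero.1 hn.symm
      have hx := h.T1 x y
      have hy := h.T2 x y
      rw [h1, inner_zero_right] at hx
      rw [h2, inner_zero_right] at hy
      have hx : x = 0 := by
        rcases mul_eq_zero.1 hx.symm with h5 | h5
        · exact (map_eq_zero (starRingEnd ℂ)).1 h5
        · exact absurd h5 hxy
      have hy : y = 0 := by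
        rcases mul_eq_zero.1 hy.symm with h5 | h5
        · exact (map_eq_zero (starRingEnd ℂ)).1 h5
        · exact absurd h5 hxy
      apply hxy
      rw [hx, hy]
      simp [Rf]
    have h2 : σ2 ≠ 0 := by
      intro h2
      rw [h2, inner_zero_right] at hn
      exact h1 (inner_self_eq_zero.1 hn)
    by_cases h0 : l 0 = 0
    · refine h.caseA hH h0 ?_ h1 h2
      intro h3
      apply hxy
      rw [h3, inner_zero_right]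
    · exact h.caseB hH h0 h1 h2

theorem caseTwoNF : CaseTwoNF := by
  intro l r t W σ1 σ2 h1 h2 h3 h4 h5 h6 h7 h8 h9 h10 h11
  exact caseTwoNF' (by simp) ⟨h1, h2, h3, h5, h6, h7, h8, h9, h10, h11⟩ h4

end Pool.Agent.W2helper66.SOS.Base
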