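import Pool.Agent.W2helper66.SOS.BaseMain

/-!
# SOS, last case, piece K7 : the case `L = 0`
-/

set_option autoImplicit false

open scoped ComplexConjugate InnerProductSpace

namespace Pool.Agent.W2helper66.SOS.Base

open Pool.Agent.W2helper74.SOS Pool.Agent.W2helper54.SOS

theorem gram_eq {t rA rB : Fin 4 → H4}
    (h : ∀ x y x' y', ⟪Tf t x' y', Tf t x y⟫_ℂ = ⟪Tf rA x' y', Tf rA x y⟫_ℂ +
      ⟪Tf rB x' y', Tf rB x y⟫_ℂ) (a b : Fin 4) :
    ⟪t a, t b⟫_ℂ = ⟪rA a, rA b⟫_ℂ + ⟪rB a, rB b⟫_ℂ := by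
  have h1 : ∀ x' y' a, ⟪Tf t x' y', t a⟫_ℂ - ⟪Tf rA x' y', rA a⟫_ℂ - ⟪Tf rB x' y', rB a⟫_ℂ = 0 := by
    intro x' y' a
    have := q3_eq_zero (a := fun a => ⟪Tf t x' y', t a⟫_ℂ - ⟪Tf rA x' y', rA a⟫_ℂ -
      ⟪Tf rB x' y', rB a⟫_ℂ) (fun x y => by
        have h2 := h x y x' y'
        rw [inner_Tf, inner_Tf, inner_Tf] at h2
        unfold q3 at h2 ⊢
        linear_combination h2)
    exact congrFun this a
  have := q3_eq_zero (a := fun b => ⟪t a, t b⟫_ℂ - ⟪rA a, rA b⟫_ℂ - ⟪rB a, rB b⟫_ℂ) (fun x y => by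
    have h2 := congrArg conj (h1 x y a)
    rw [map_sub, map_sub, inner_conj_symm, inner_conj_symm, inner_conj_symm, map_zero, inner_Tf,
      inner_Tf, inner_Tf] at h2
    unfold q3 at h2 ⊢
    linear_combination h2)
  have h3 := congrFun this b
  simp only [Pi.zero_apply] at h3
  linear_combination h3

theorem gram_comb {t rA rB : Fin 4 → H4}
    (h : ∀ a b, ⟪t a, t b⟫_ℂ = ⟪rA a, rA b⟫_ℂ + ⟪rB a, rB b⟫_ℂ) (θ : Fin 4 → ℂ) :
    (∑ a, θ a • t a = 0) ↔ (∑ a, θ a • rA a = 0 ∧ ∑ a, θ a • rB a = 0) := by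
  have key : ⟪∑ a, θ a • t a, ∑ a, θ a • t a⟫_ℂ = ⟪∑ a, θ a • rA a, ∑ a, θ a • rA a⟫_ℂ +
      ⟪∑ a, θ a • rB a, ∑ a, θ a • rB a⟫_ℂ := by
    simp only [sum_inner, inner_sum, inner_smul_left, inner_smul_right, h, mul_add,
      Finset.sum_add_distrib]
  constructor
  · intro h0
    rw [h0, inner_zero_left, innC, innC] at key
    have h1 : (0 : ℝ) = ‖∑ a, θ a • rA a‖ ^ 2 + ‖∑ a, θ a • rB a‖ ^ 2 := by exact_mod_cast key
    have h2 : ‖∑ a, θ a • rA a‖ ^ 2 = 0 := by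
      have := sq_nonneg ‖∑ a, θ a • rA a‖
      have := sq_nonneg ‖∑ a, θ a • rB a‖
      linarith
    have h3 : ‖∑ a, θ a • rB a‖ ^ 2 = 0 := by
      have := sq_nonneg ‖∑ a, θ a • rA a‖
      have := sq_nonneg ‖∑ a, θ a • rB a‖
      linarith
    exact ⟨norm_eq_zero.1 (by simpa using h2), norm_eq_zero.1 (by simpa using h3)⟩
  · rintro ⟨h1, h2⟩
    rw [h1, h2, inner_zero_left, zero_add] at key
    exact inner_self_eq_zero.1 key

theorem caseZero : CaseZero := by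
  intro l r t h hL
  have hTR : ∀ x y x' y', ⟪Tf t x' y', Rf r x y⟫_ℂ = 0 := by
    intro x y x' y'
    rw [h.e1, hL, inner_zero_right, mul_zero]
  set rA : Fin 4 → H4 := ![r 0, r 1, r 2, 0] with hrA
  set rB : Fin 4 → H4 := ![0, r 0, r 1, r 2] with hrB
  have hA : ∀ x y, Tf rA x y = x • Rf r x y := by
    intro x y
    change x ^ 3 • r 0 + (x ^ 2 * y) • r 1 + (x * y ^ 2) • r 2 + y ^ 3 • (0 : H4) = _
    unfold Rf
    module
  have hB : ∀ x y, Tf rB x y = y • Rf r x y := by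
    intro x y
    change x ^ 3 • (0 : H4) + (x ^ 2 * y) • r 0 + (x * y ^ 2) • r 1 + y ^ 3 • r 2 = _
    unfold Rf
    module
  have hg := gram_eq (t := t) (rA := rA) (rB := rB) (fun x y x' y' => by
    rw [h.e0, hL x y, inner_zero_right, mul_zero, sub_zero, hA, hA, hB, hB, inner_smul_left,
      inner_smul_right, inner_smul_left, inner_smul_right]
    unfold ss
    ring)
  have hc := gram_comb hg
  let Φ : (Fin 4 → ℂ) →ₗ[ℂ] H4 := Fintype.linearCombination ℂ t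
  let Ψ : (Fin 3 → ℂ) →ₗ[ℂ] H4 := Fintype.linearCombination ℂ r
  let p0 : (Fin 4 → ℂ) →ₗ[ℂ] (Fin 3 → ℂ) := LinearMap.funLeft ℂ ℂ Fin.castSucc
  let p1 : (Fin 4 → ℂ) →ₗ[ℂ] (Fin 3 → ℂ) := LinearMap.funLeft ℂ ℂ Fin.succ
  have hK : ∀ θ, Φ θ = 0 ↔ (Ψ (p0 θ) = 0 ∧ Ψ (p1 θ) = 0) := by
    intro θ
    have e1 : Φ θ = ∑ a, θ a • t a := Fintype.linearCombination_apply ℂ t θ
    have e2 : Ψ (p0 θ) = ∑ a, θ a • rA a := by
      change Fintype.linearCombination ℂ r (p0 θ) = _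
      rw [Fintype.linearCombination_apply, Fin.sum_univ_three, Fin.sum_univ_four]
      change θ 0 • r 0 + θ 1 • r 1 + θ 2 • r 2 =
        θ 0 • r 0 + θ 1 • r 1 + θ 2 • r 2 + θ 3 • (0 : H4)
      rw [smul_zero, add_zero]
    have e3 : Ψ (p1 θ) = ∑ a, θ a • rB a := by
      change Fintype.linearCombination ℂ r (p1 θ) = _
      rw [Fintype.linearCombination_apply, Fin.sum_univ_three, Fin.sum_univ_four]
      change θ 1 • r 0 + θ 2 • r 1 + θ 3 • r 2 =
        θ 0 • (0 : H4) + θ 1 • r 0 + θ 2 • r 1 + θ 3 • r 2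
      rw [smul_zero, zero_add]
    rw [e1, e2, e3]
    exact hc θ
  have hTm : ∀ x y, Tf t x y ∈ LinearMap.range Φ := by
    intro x y
    refine ⟨![x ^ 3, x ^ 2 * y, x * y ^ 2, y ^ 3], ?_⟩
    change Fintype.linearCombination ℂ t _ = _
    rw [Fintype.linearCombination_apply, Fin.sum_univ_four]
    rfl
  have hRm : ∀ x y, Rf r x y ∈ LinearMap.range Ψ := by
    intro x y
    refine ⟨![x ^ 2, x * y, y ^ 2], ?_⟩
    change Fintype.linearCombination ℂ r _ = _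
    rw [Fintype.linearCombination_apply, Fin.sum_univ_three]
    rfl
  -- the two ranges are orthogonal
  have hrt : ∀ a b, ⟪t a, r b⟫_ℂ = 0 := by
    intro a b
    have h1 : ∀ x y a, ⟪Rf r x y, t a⟫_ℂ = 0 := by
      intro x y a
      have := q3_eq_zero (a := fun a => ⟪Rf r x y, t a⟫_ℂ) (fun x' y' => by
        rw [← inner_Tf]; exact inner_swap (hTR x y x' y'))
      exact congrFun this a
    have h2 := q2_eq_zero (a := ![⟪t a, r 0⟫_ℂ, ⟪t a, r 1⟫_ℂ, ⟪t a, r 2⟫_ℂ]) (fun x y => by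
      have h3 := inner_swap (h1 x y a)
      rw [inner_Rf] at h3
      change ⟪t a, r 0⟫_ℂ * x ^ 2 + ⟪t a, r 1⟫_ℂ * x * y + ⟪t a, r 2⟫_ℂ * y ^ 2 = 0
      linear_combination h3)
    fin_cases b
    · exact congrFun h2 0
    · exact congrFun h2 1
    · exact congrFun h2 2
  have horth : ∀ u ∈ LinearMap.range Φ, ∀ v ∈ LinearMap.range Ψ, ⟪u, v⟫_ℂ = 0 := by
    rintro _ ⟨θ, rfl⟩ _ ⟨η, rfl⟩
    change ⟪Fintype.linearCombination ℂ t θ, Fintype.linearCombination ℂ r η⟫_ℂ = 0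
    rw [Fintype.linearCombination_apply, Fintype.linearCombination_apply]
    simp only [sum_inner, inner_sum, inner_smul_left, inner_smul_right, hrt, mul_zero,
      Finset.sum_const_zero]
  have hsup : LinearMap.range Φ ⊔ LinearMap.range Ψ = ⊤ := by
    rw [← Submodule.orthogonal_eq_bot_iff, Submodule.eq_bot_iff]
    intro v hv
    rw [Submodule.mem_orthogonal] at hv
    apply h.ind v
    · intro x y; rw [hL, inner_zero_right]
    · intro x y
      exact inner_swap (hv _ (Submodule.mem_sup_right (hRm x y)))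
    · intro x y
      exact inner_swap (hv _ (Submodule.mem_sup_left (hTm x y)))
  have hinf : LinearMap.range Φ ⊓ LinearMap.range Ψ = ⊥ := by
    rw [Submodule.eq_bot_iff]
    rintro v ⟨h1, h2⟩
    exact inner_self_eq_zero.1 (horth v h1 v h2)
  have hdim : Module.finrank ℂ (LinearMap.range Φ) + Module.finrank ℂ (LinearMap.range Ψ) = 4 := by
    have := Submodule.finrank_sup_add_finrank_inf_eq (LinearMap.range Φ) (LinearMap.range Ψ)
    rw [hsup, hinf, finrank_top, finrank_bot] at this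
    simpa using this.symm
  have hrn1 := LinearMap.finrank_range_add_finrank_ker Φ
  have hrn2 := LinearMap.finrank_range_add_finrank_ker Ψ
  rw [Module.finrank_fin_fun] at hrn1 hrn2
  set k := Module.finrank ℂ (LinearMap.ker Φ) with hk
  set n := Module.finrank ℂ (LinearMap.ker Ψ) with hn
  have hkn : k + n = 3 := by omega
  -- lower bound for k
  let Ξ : (Fin 4 → ℂ) →ₗ[ℂ] (((Fin 3 → ℂ) ⧸ LinearMap.ker Ψ) × ((Fin 3 → ℂ) ⧸ LinearMap.ker Ψ)) :=
    LinearMap.prod ((LinearMap.ker Ψ).mkQ ∘ₗ p0) ((LinearMap.ker Ψ).mkQ ∘ₗ p1)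
  have hΞ : LinearMap.ker Ξ = LinearMap.ker Φ := by
    ext θ
    rw [LinearMap.mem_ker, LinearMap.mem_ker, hK]
    change ((LinearMap.ker Ψ).mkQ (p0 θ), (LinearMap.ker Ψ).mkQ (p1 θ)) = 0 ↔ _
    rw [Prod.mk_eq_zero, Submodule.mkQ_apply, Submodule.mkQ_apply, Submodule.Quotient.mk_eq_zero,
      Submodule.Quotient.mk_eq_zero, LinearMap.mem_ker, LinearMap.mem_ker]
  have hq : Module.finrank ℂ ((Fin 3 → ℂ) ⧸ LinearMap.ker Ψ) + n = 3 := by
    have := Submodule.finrank_quotient_add_finrank (LinearMap.ker Ψ)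
    rwa [Module.finrank_fin_fun] at this
  have hk2 : 4 ≤ k + 2 * Module.finrank ℂ ((Fin 3 → ℂ) ⧸ LinearMap.ker Ψ) := by
    have h1 := LinearMap.finrank_range_add_finrank_ker Ξ
    rw [hΞ, Module.finrank_fin_fun] at h1
    have h2 := Submodule.finrank_le (LinearMap.range Ξ)
    rw [Module.finrank_prod] at h2
    omega
  -- k ≥ 2 n - 2 and k = 3 - n, so n ≤ 1
  have hn1 : n ≤ 1 := by omega
  rcases Nat.lt_or_ge n 1 with h0 | h0
  · -- n = 0, k = 3
    have hbot : LinearMap.ker Ψ = ⊥ := Submodule.finrank_eq_zero.1 (by omega)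
    have hkb : LinearMap.ker Φ = ⊥ := by
      rw [Submodule.eq_bot_iff]
      intro θ hθ
      rw [LinearMap.mem_ker, hK] at hθ
      have h1 : p0 θ ∈ LinearMap.ker Ψ := hθ.1
      have h2 : p1 θ ∈ LinearMap.ker Ψ := hθ.2
      rw [hbot, Submodule.mem_bot] at h1 h2
      funext i
      fin_cases i
      · exact congrFun h1 0
      · exact congrFun h1 1
      · exact congrFun h1 2
      · exact congrFun h2 2
    have : k = 0 := by rw [hk, hkb, finrank_bot]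
    omega
  · have hn' : n = 1 := by omega
    have hk' : k = 2 := by omega
    have hex : ∀ (p : (Fin 4 → ℂ) →ₗ[ℂ] (Fin 3 → ℂ)), (∀ θ ∈ LinearMap.ker Φ, p θ ∈ LinearMap.ker Ψ) →
        ∃ θ ∈ LinearMap.ker Φ, θ ≠ 0 ∧ p θ = 0 := by
      intro p hp
      let f : LinearMap.ker Φ →ₗ[ℂ] LinearMap.ker Ψ := p.restrict hp
      have hker : LinearMap.ker f ≠ ⊥ := by
        apply LinearMap.ker_ne_bot_of_finrank_lt
        omega
      obtain ⟨θ, hθ, hθ0⟩ := Submodule.exists_mem_ne_zero_of_ne_bot hker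
      refine ⟨θ, θ.2, fun h5 => hθ0 (Subtype.ext h5), ?_⟩
      have := congrArg Subtype.val (LinearMap.mem_ker.1 hθ)
      exact this
    obtain ⟨θ, hθ, hθ0, hpθ⟩ := hex p0 (fun θ hθ => (((hK θ).1 (LinearMap.mem_ker.1 hθ)).1))
    obtain ⟨μ, hμ, hμ0, hpμ⟩ := hex p1 (fun θ hθ => (((hK θ).1 (LinearMap.mem_ker.1 hθ)).2))
    have a0 : θ 0 = 0 := congrFun hpθ 0
    have a1 : θ 1 = 0 := congrFun hpθ 1
    have a2 : θ 2 = 0 := congrFun hpθ 2
    have b1 : μ 1 = 0 := congrFun hpμ 0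
    have b2 : μ 2 = 0 := congrFun hpμ 1
    have b3 : μ 3 = 0 := congrFun hpμ 2
    have a3 : θ 3 ≠ 0 := by
      intro h5
      apply hθ0
      funext i
      fin_cases i
      · exact a0
      · exact a1
      · exact a2
      · exact h5
    have b0 : μ 0 ≠ 0 := by
      intro h5
      apply hμ0
      funext i
      fin_cases i
      · exact h5
      · exact b1
      · exact b2
      · exact b3
    have m1 : p1 θ ∈ LinearMap.ker Ψ := ((hK θ).1 (LinearMap.mem_ker.1 hθ)).2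
    have m0 : p0 μ ∈ LinearMap.ker Ψ := ((hK μ).1 (LinearMap.mem_ker.1 hμ)).1
    obtain ⟨v, hv, hv'⟩ := finrank_eq_one_iff'.1 (show Module.finrank ℂ (LinearMap.ker Ψ) = 1 from hn')
    obtain ⟨c, hc'⟩ := hv' ⟨p1 θ, m1⟩
    obtain ⟨d, hd'⟩ := hv' ⟨p0 μ, m0⟩
    have c2 : c * v.1 2 = θ 3 := congrFun (congrArg Subtype.val hc') 2
    have c0 : c * v.1 0 = θ 1 := congrFun (congrArg Subtype.val hc') 0
    have d0 : d * v.1 0 = μ 0 := congrFun (congrArg Subtype.val hd') 0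
    have hc0 : c ≠ 0 := by rintro rfl; apply a3; rw [← c2, zero_mul]
    have hv0 : v.1 0 = 0 := by
      rw [a1] at c0
      exact (mul_eq_zero.1 c0).resolve_left hc0
    apply b0
    rw [← d0, hv0, mul_zero]

end Pool.Agent.W2helper66.SOS.Base
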