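import Pool.Agent.W2helper66.SOS.BaseRed
import Pool.Agent.W2helper66.SOS.BaseZero
import Pool.Agent.W2helper54.SOS.Base3

/-!
# SOS, last case, piece K7 : `Base`
-/

set_option autoImplicit false

namespace Pool.Agent.W2helper66.SOS

theorem base : Pool.Agent.W2helper74.SOS.Base :=
  Base.base_of Base.caseZero Pool.Agent.W2helper54.SOS.Base3.caseThree Base.caseTwoRed

end Pool.Agent.W2helper66.SOS
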